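import Pool.Agent.Helper4.MCP.STP

set_option autoImplicit false

namespace Pool.Agent.Helper4.MCP

open Finset Pool.Agent.Helper87.MC Pool.Agent.Helper26.MCE

theorem card_le_of_full {G : Type} [AddCommGroup G] [Fintype G] {D : Finset G}
    {K : AddSubgroup G} (h : (full D K).Nonempty) : Nat.card K ≤ D.card := by
  classical
  obtain ⟨x, hx⟩ := h
  have h2 : ∀ h ∈ K, x + h ∈ D := (Finset.mem_filter.mp hx).2
  have h3 := Nat.card_le_card_of_injective
    (fun h : K => (⟨x + h, h2 h h.2⟩ : {y // y ∈ D})) (by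
      intro a b hab
      simpa using hab)
  simpa using h3

theorem card_sup_le {G : Type} [AddCommGroup G] [Fintype G] (H K : AddSubgroup G) :
    Nat.card (H ⊔ K : AddSubgroup G) ≤ Nat.card H * Nat.card K := by
  rw [← Nat.card_prod]
  refine Nat.card_le_card_of_surjective (fun p : H × K => (⟨p.1 + p.2,
    add_mem (AddSubgroup.mem_sup_left p.1.2) (AddSubgroup.mem_sup_right p.2.2)⟩ :
      (H ⊔ K : AddSubgroup G))) ?_
  rintro ⟨x, hx⟩
  obtain ⟨y, hy, z, hz, rfl⟩ := AddSubgroup.mem_sup.mp hx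
  exact ⟨(⟨y, hy⟩, ⟨z, hz⟩), rfl⟩

open Classical in
/-- If the bad sets are small there is a good point. -/
theorem exists_good {Ω : Type} [Fintype Ω] [Nonempty Ω] {r : ℕ} {G : Type} (D : Finset G)
    (P1 : Fin r → Ω → Prop) (P2 P3 : Ω → Prop) (P4 : G → Ω → Prop)
    [∀ j, DecidablePred (P1 j)] [DecidablePred P2] [DecidablePred P3] [∀ d, DecidablePred (P4 d)]
    (h1 : (∑ j, ((univ.filter fun ω => P1 j ω).card : ℝ)) * 8 ≤ Fintype.card Ω)
    (h2 : ((univ.filter fun ω => P2 ω).card : ℝ) * 8 ≤ Fintype.card Ω)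
    (h3 : ((univ.filter fun ω => P3 ω).card : ℝ) * 8 ≤ Fintype.card Ω)
    (h4 : (∑ d ∈ D, ((univ.filter fun ω => P4 d ω).card : ℝ)) * 8 ≤ Fintype.card Ω) :
    ∃ ω, (∀ j, ¬ P1 j ω) ∧ ¬ P2 ω ∧ ¬ P3 ω ∧ ∀ d ∈ D, ¬ P4 d ω := by
  by_contra hcon
  have hsub : (univ : Finset Ω) ⊆ (univ.biUnion fun j => univ.filter fun ω => P1 j ω) ∪
      ((univ.filter fun ω => P2 ω) ∪ ((univ.filter fun ω => P3 ω) ∪
        (D.biUnion fun d => univ.filter fun ω => P4 d ω))) := by
    intro ω _
    by_contra hω
    simp only [mem_union, mem_biUnion, mem_filter, mem_univ, true_and, not_or, not_exists,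
      not_and] at hω
    exact hcon ⟨ω, hω.1, hω.2.1, hω.2.2.1, hω.2.2.2⟩
  have hcard := Finset.card_le_card hsub
  have g1 := Finset.card_union_le (univ.biUnion fun j => univ.filter fun ω => P1 j ω)
    ((univ.filter fun ω => P2 ω) ∪ ((univ.filter fun ω => P3 ω) ∪
        (D.biUnion fun d => univ.filter fun ω => P4 d ω)))
  have g2 := Finset.card_union_le (univ.filter fun ω => P2 ω) ((univ.filter fun ω => P3 ω) ∪
        (D.biUnion fun d => univ.filter fun ω => P4 d ω))
  have g3 := Finset.card_union_le (univ.filter fun ω => P3 ω)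
    (D.biUnion fun d => univ.filter fun ω => P4 d ω)
  have g4 : (univ.biUnion fun j => univ.filter fun ω => P1 j ω).card ≤
      ∑ j, (univ.filter fun ω => P1 j ω).card := Finset.card_biUnion_le
  have g5 : (D.biUnion fun d => univ.filter fun ω => P4 d ω).card ≤
      ∑ d ∈ D, (univ.filter fun ω => P4 d ω).card := Finset.card_biUnion_le
  rw [Finset.card_univ] at hcard
  have g6 : (Fintype.card Ω : ℝ) ≤ (∑ j, ((univ.filter fun ω => P1 j ω).card : ℝ)) +
      ((univ.filter fun ω => P2 ω).card + ((univ.filter fun ω => P3 ω).card +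
        ∑ d ∈ D, ((univ.filter fun ω => P4 d ω).card : ℝ))) := by
    exact_mod_cast hcard.trans (by omega)
  have g7 : (0 : ℝ) < Fintype.card Ω := by exact_mod_cast Fintype.card_pos
  linarith

theorem num_b1 {x M q2 A n N Q : ℝ} (hA : n ≤ 64 * Q ^ 4 * A) (hM : Q ^ 8 ≤ M) (hQ : 10000 ≤ Q)
    (hx : 0 ≤ x) (hn : 0 < n) (h : x * (M * A) ≤ 4 * n * N) (hq2 : q2 ≤ 2 * Q ^ 2) : x * (8 * q2) ≤ N := by
  have hQ0 : 0 < Q := by linarith
  have h1 : x * M * n ≤ 256 * Q ^ 4 * N * n := by
    calc x * M * n ≤ x * M * (64 * Q ^ 4 * A) := by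
          apply mul_le_mul_of_nonneg_left hA
          have : 0 ≤ M := le_trans (by positivity) hM
          positivity
      _ = 64 * Q ^ 4 * (x * (M * A)) := by ring
      _ ≤ 64 * Q ^ 4 * (4 * n * N) := by gcongr
      _ = 256 * Q ^ 4 * N * n := by ring
  have h2 : x * M ≤ 256 * Q ^ 4 * N := le_of_mul_le_mul_right h1 hn
  have h3 : Q ^ 4 * (x * Q ^ 4) ≤ Q ^ 4 * (256 * N) := by
    calc Q ^ 4 * (x * Q ^ 4) = x * Q ^ 8 := by ring
      _ ≤ x * M := by gcongr
      _ ≤ 256 * Q ^ 4 * N := h2
      _ = Q ^ 4 * (256 * N) := by ring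
  have h4 : x * Q ^ 4 ≤ 256 * N := le_of_mul_le_mul_left h3 (by positivity)
  have h5 : x * (16 * Q ^ 2) * 256 ≤ 256 * N := by
    calc x * (16 * Q ^ 2) * 256 = x * (4096 * Q ^ 2) := by ring
      _ ≤ x * (Q ^ 2 * Q ^ 2) := by gcongr; nlinarith
      _ = x * Q ^ 4 := by ring
      _ ≤ 256 * N := h4
  have h6 : x * (8 * q2) ≤ x * (16 * Q ^ 2) :=
    mul_le_mul_of_nonneg_left (by linarith) hx
  linarith

open Classical in
theorem goalCORP (hIT : G_ITER) (hREG : G_REG) (hBIN : G_BIN) (hMARK : G_MARK) (hCOV : G_COV)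
    (hSTAR : G_STAR) : G_CORP := by
  intro G _ _ D Q hQ hn hD hDn
  have hQr : (10000 : ℝ) ≤ Q := by exact_mod_cast hQ
  have hQ0 : (0 : ℝ) < Q := by linarith
  obtain ⟨n, hndef⟩ : ∃ n, n = Fintype.card G := ⟨_, rfl⟩
  have hn0 : 0 < n := by rw [hndef]; exact Fintype.card_pos
  have hn0r : (0 : ℝ) < n := by exact_mod_cast hn0
  have hk : 1 ≤ D.card := Finset.card_pos.mpr hD
  obtain ⟨M, hMdef⟩ : ∃ M, M = Q ^ 8 * D.card := ⟨_, rfl⟩
  have hM8 : Q ^ 8 ≤ M := by
    rw [hMdef]
    exact Nat.le_mul_of_pos_right _ hk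
  have hM1 : 1 ≤ M := le_trans (Nat.one_le_iff_ne_zero.mpr (pow_ne_zero _ (by omega))) hM8
  have hMD : M * D.card * Q ^ 492 ≤ n := by
    rw [hndef]
    refine le_trans (le_of_eq ?_) hDn
    rw [hMdef]
    ring
  have hkn : D.card ≤ n := by rw [hndef]; exact Finset.card_le_univ D
  obtain ⟨q, K, U, hq, hfull, hcov, hdet, hU⟩ := hIT G D M Q hQ hn hM1 (hndef ▸ hMD) hD
  rw [← hndef] at hn hDn hU
  have hqr : (q : ℝ) + 1 ≤ 2 * (Q : ℝ) ^ 2 := by exact_mod_cast hq
  -- regions
  have hq4 : (q + 1) ^ 2 ≤ 4 * Q ^ 4 := by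
    calc (q + 1) ^ 2 ≤ (2 * Q ^ 2) ^ 2 := Nat.pow_le_pow_left hq 2
      _ = 4 * Q ^ 4 := by ring
  obtain ⟨R, hR1, hR2, hR3⟩ := hREG G (q + 1) (fun j => K j ⊔ K 0) (by omega) (by
    intro j
    have h1 : Nat.card (K j ⊔ K 0 : AddSubgroup G) ≤ D.card * D.card :=
      (card_sup_le _ _).trans (Nat.mul_le_mul (card_le_of_full (hfull j))
        (card_le_of_full (hfull 0)))
    rw [← hndef]
    refine le_trans ?_ hDn
    calc 8 * (q + 1) ^ 2 * Nat.card (K j ⊔ K 0 : AddSubgroup G)
        ≤ 8 * (4 * Q ^ 4) * (D.card * D.card) :=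
          Nat.mul_le_mul (Nat.mul_le_mul_left _ hq4) h1
      _ = D.card ^ 2 * (32 * Q ^ 4) := by ring
      _ ≤ D.card ^ 2 * (Q * Q ^ 4) := by
          apply Nat.mul_le_mul_left
          apply Nat.mul_le_mul_right
          omega
      _ = D.card ^ 2 * Q ^ 5 := by ring
      _ ≤ D.card ^ 2 * Q ^ 500 := by
          apply Nat.mul_le_mul_left
          exact Nat.pow_le_pow_right (by omega) (by norm_num))
  rw [← hndef] at hR2 hR3
  set A : Fin (q + 1) → Finset G := fun j => univ.filter fun x => Reg R j x with hA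
  have hAcard : ∀ j, n ≤ 64 * Q ^ 4 * (A j).card := by
    intro j
    by_cases hj : j = 0
    · have h1 : (univ.biUnion R).card ≤ ∑ j, (R j).card := Finset.card_biUnion_le
      have h2 : univ \ univ.biUnion R ⊆ A j := by
        intro x hx
        simp only [mem_sdiff, mem_univ, true_and, mem_biUnion, not_exists] at hx
        simp only [hA, mem_filter, mem_univ, true_and]
        exact ⟨fun h => absurd hj h, fun i' _ _ => hx i'⟩
      have h3 : n ≤ (univ \ univ.biUnion R).card + (univ.biUnion R).card := by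
        rw [Finset.card_sdiff_add_card, Finset.union_eq_left.mpr (Finset.subset_univ _),
          Finset.card_univ, hndef]
      have h4 := Finset.card_le_card h2
      have h5 : n ≤ 2 * (A j).card := by omega
      refine h5.trans (Nat.mul_le_mul_right _ ?_)
      have : 0 < Q ^ 4 := pow_pos (by omega) 4
      omega
    · have h2 : R j \ (univ.erase j).biUnion R ⊆ A j := by
        intro x hx
        simp only [mem_sdiff, mem_biUnion, not_exists, mem_erase, mem_univ, and_true,
          not_and] at hx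
        simp only [hA, mem_filter, mem_univ, true_and]
        exact ⟨fun _ => hx.1, fun i' _ h => hx.2 i' h⟩
      calc n ≤ 16 * (q + 1) ^ 2 * (R j \ (univ.erase j).biUnion R).card := hR2 j
        _ ≤ 16 * (4 * Q ^ 4) * (A j).card :=
          Nat.mul_le_mul (Nat.mul_le_mul_left _ hq4) (Finset.card_le_card h2)
        _ = 64 * Q ^ 4 * (A j).card := by ring
  -- the bad points
  obtain ⟨N, hNdef⟩ : ∃ N : ℝ, N = (n : ℝ) ^ M := ⟨_, rfl⟩
  have hN0 : 0 < N := by rw [hNdef]; positivity
  have hcardΩ : (Fintype.card (Fin M → G) : ℝ) = N := by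
    rw [hNdef, Fintype.card_fun, Fintype.card_fin, hndef]
    push_cast
    rfl
  have hM8r : (Q : ℝ) ^ 8 ≤ M := by exact_mod_cast hM8
  have hM0r : (0 : ℝ) < M := by exact_mod_cast hM1
  obtain ⟨θ, hθ⟩ : ∃ θ : ℝ, θ = 1 / (512 * (Q : ℝ) ^ 4) := ⟨_, rfl⟩
  have hθ0 : 0 < θ := by rw [hθ]; positivity
  obtain ⟨ω, g1, g2, g3, g4⟩ := exists_good (Ω := Fin M → G) (r := q + 1) D
    (fun j ω => 2 * n * (univ.filter fun v => ω v ∈ A j).card < M * (A j).card)
    (fun ω => M < 512 * Q ^ 4 * (univ \ U ω).card)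
    (fun ω => ¬ ∀ z, (univ.filter fun v => ω v - z ∈ D).card ≤ Q)
    (fun d ω => (∀ z, (univ.filter fun v => ω v - z ∈ D).card ≤ Q) ∧
      θ * M < ((univ.filter fun v => ∃ v', v' ≠ v ∧ ω v + d - ω v' ∈ D).card : ℝ))
    (by
      rw [hcardΩ]
      have h1 : ∀ j, (((univ.filter fun ω : Fin M → G =>
          2 * n * (univ.filter fun v => ω v ∈ A j).card < M * (A j).card).card : ℝ)) ≤
          N / (8 * ((q : ℝ) + 1)) := by
        intro j
        rw [le_div_iff₀ (by positivity)]
        have h2 := hBIN G M (A j)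
        rw [← hndef] at h2
        refine num_b1 (A := ((A j).card : ℝ)) (M := (M : ℝ)) (n := (n : ℝ)) (Q := (Q : ℝ)) ?_ hM8r
          hQr (Nat.cast_nonneg _) hn0r ?_ hqr
        · exact_mod_cast hAcard j
        · rw [hNdef]
          exact_mod_cast h2
      refine (mul_le_mul_of_nonneg_right (Finset.sum_le_sum fun j _ => h1 j)
        (by norm_num : (0 : ℝ) ≤ 8)).trans ?_
      rw [Finset.sum_const, Finset.card_univ, Fintype.card_fin, nsmul_eq_mul]
      push_cast
      field_simp
      exact le_rfl)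
    (by
      rw [hcardΩ]
      have h1 : ((univ.filter fun ω : Fin M → G => M < 512 * Q ^ 4 * (univ \ U ω).card).card : ℝ) *
          M ≤ 512 * Q ^ 4 * ∑ ω, ((univ \ U ω).card : ℝ) := by
        rw [← nsmul_eq_mul, ← Finset.sum_const, Finset.mul_sum]
        calc ∑ _ω ∈ univ.filter fun ω : Fin M → G => M < 512 * Q ^ 4 * (univ \ U ω).card, (M : ℝ)
            ≤ ∑ ω ∈ univ.filter fun ω : Fin M → G => M < 512 * Q ^ 4 * (univ \ U ω).card,
              512 * (Q : ℝ) ^ 4 * ((univ \ U ω).card : ℝ) := by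
              refine Finset.sum_le_sum fun ω hω => ?_
              have := (Finset.mem_filter.mp hω).2.le
              exact_mod_cast this
          _ ≤ ∑ ω, 512 * (Q : ℝ) ^ 4 * ((univ \ U ω).card : ℝ) :=
              Finset.sum_le_sum_of_subset_of_nonneg (Finset.filter_subset _ _)
                fun _ _ _ => by positivity
      have h2 : (Q : ℝ) ^ 5 * ∑ ω, ((univ \ U ω).card : ℝ) ≤ 2 * M * N := by
        rw [hNdef]
        exact_mod_cast hU
      obtain ⟨x, hx⟩ : ∃ x : ℝ, x = ((univ.filter fun ω : Fin M → G =>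
        M < 512 * Q ^ 4 * (univ \ U ω).card).card : ℝ) := ⟨_, rfl⟩
      rw [← hx] at h1 ⊢
      have hx0 : 0 ≤ x := by rw [hx]; exact Nat.cast_nonneg _
      have h3 : M * (x * Q) ≤ M * (1024 * N) := by
        calc M * (x * Q) = x * M * Q := by ring
          _ ≤ 512 * Q ^ 4 * (∑ ω, ((univ \ U ω).card : ℝ)) * Q :=
            mul_le_mul_of_nonneg_right h1 hQ0.le
          _ = 512 * ((Q : ℝ) ^ 5 * ∑ ω, ((univ \ U ω).card : ℝ)) := by ring
          _ ≤ 512 * (2 * M * N) := by linarith
          _ = M * (1024 * N) := by ring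
      have h4 : x * Q ≤ 1024 * N := le_of_mul_le_mul_left h3 hM0r
      have h5 : x * 10000 ≤ x * Q := mul_le_mul_of_nonneg_left hQr hx0
      linarith)
    (by
      rw [hcardΩ]
      have h1 := hCOV G (D.map (Equiv.neg G).toEmbedding) M Q (by omega)
      rw [Finset.card_map, ← hndef] at h1
      have h2 : (univ.filter fun ω : Fin M → G => ¬ ∀ z, (univ.filter fun v => ω v - z ∈ D).card ≤
          Q) = univ.filter fun ω : Fin M → G => ¬ Covok (D.map (Equiv.neg G).toEmbedding) Q ω := by
        refine Finset.filter_congr fun ω _ => not_congr ?_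
        unfold Covok
        refine forall_congr' fun z => ?_
        rw [Nat.card_eq_fintype_card, Fintype.card_subtype]
        have h3 : ∀ v, (z - ω v ∈ D.map (Equiv.neg G).toEmbedding ↔ ω v - z ∈ D) := by
          intro v
          rw [Finset.mem_map]
          constructor
          · rintro ⟨y, hy, h4⟩
            have h5 : -y = z - ω v := h4
            have h6 : ω v - z = y := by rw [← neg_sub, ← h5, neg_neg]
            rwa [h6]
          · intro h4
            exact ⟨_, h4, neg_sub _ _⟩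
        simp_rw [h3]
      rw [← h2] at h1
      have h3 := pow_trick (S := ((univ.filter fun ω : Fin M → G => ¬ ∀ z,
        (univ.filter fun v => ω v - z ∈ D).card ≤ Q).card : ℝ)) (N := N) (a := (n : ℝ))
        (b := (M : ℝ) * D.card) (n := n) (Q := Q) (by
          rw [hNdef]
          exact_mod_cast h1) hn (by positivity) hN0.le hn0r (by omega) (by
          have h4 : 2 * (M * D.card) * Q ^ 10 ≤ n := by
            refine le_trans ?_ hMD
            calc 2 * (M * D.card) * Q ^ 10 = M * D.card * (2 * Q ^ 10) := by ring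
              _ ≤ M * D.card * (Q * Q ^ 10) := by
                apply Nat.mul_le_mul_left
                apply Nat.mul_le_mul_right
                omega
              _ = M * D.card * Q ^ 11 := by ring
              _ ≤ M * D.card * Q ^ 492 := by
                apply Nat.mul_le_mul_left
                exact Nat.pow_le_pow_right (by omega) (by norm_num)
          exact_mod_cast h4)
      refine le_trans (mul_le_mul_of_nonneg_left ?_ (Nat.cast_nonneg _)) h3
      have : (Q : ℝ) ≤ Q ^ 10 := by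
        have := pow_le_pow_right₀ (by linarith : (1 : ℝ) ≤ Q) (by norm_num : 1 ≤ 10)
        rwa [pow_one] at this
      linarith)
    (by
      rw [hcardΩ]
      have hθM : 2 * ((Q : ℝ) * (2 * Q + 2)) ≤ θ * M := by
        have h1 : (Q : ℝ) ^ 4 ≤ 512 * (θ * M) := by
          rw [hθ]
          have h2 : 512 * (1 / (512 * (Q : ℝ) ^ 4) * M) = M / Q ^ 4 := by field_simp
          rw [h2, le_div_iff₀ (by positivity)]
          refine le_trans (le_of_eq ?_) hM8r
          ring
        have h2 : (Q : ℝ) ^ 2 * 100000000 ≤ Q ^ 4 := by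
          have : (Q : ℝ) ^ 4 = Q ^ 2 * Q ^ 2 := by ring
          rw [this]
          apply mul_le_mul_of_nonneg_left _ (by positivity)
          nlinarith
        nlinarith
      have h1 := fun d => hMARK G D M Q θ d (by omega) hθ0 hθM
      rw [← hndef] at h1
      have h3 := pow_trick (S := ∑ d ∈ D, ((univ.filter fun ω : Fin M → G =>
        (∀ z, (univ.filter fun v => ω v - z ∈ D).card ≤ Q) ∧
        θ * M < ((univ.filter fun v => ∃ v', v' ≠ v ∧ ω v + d - ω v' ∈ D).card : ℝ)).card : ℝ))
        (N := N) (a := θ * n) (b := 2 * ((M : ℝ) * D.card)) (n := n) (Q := Q) (by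
          rw [Finset.sum_mul]
          refine (Finset.sum_le_sum fun d _ => h1 d).trans ?_
          rw [Finset.sum_const, nsmul_eq_mul, hNdef, mul_assoc (n : ℝ)]
          apply mul_le_mul_of_nonneg_right _ (by positivity)
          exact_mod_cast hkn) hn (by positivity) hN0.le (by positivity) (by omega) (by
          rw [hθ, one_div_mul_eq_div, le_div_iff₀ (by positivity)]
          have h4 : 2 * (2 * (M * D.card)) * Q ^ 10 * (512 * Q ^ 4) ≤ n := by
            refine le_trans ?_ hMD
            calc 2 * (2 * (M * D.card)) * Q ^ 10 * (512 * Q ^ 4) = M * D.card * (2048 * Q ^ 14) := by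
                  ring
              _ ≤ M * D.card * (Q * Q ^ 14) := by
                apply Nat.mul_le_mul_left
                apply Nat.mul_le_mul_right
                omega
              _ = M * D.card * Q ^ 15 := by ring
              _ ≤ M * D.card * Q ^ 492 := by
                apply Nat.mul_le_mul_left
                exact Nat.pow_le_pow_right (by omega) (by norm_num)
          exact_mod_cast h4)
      refine le_trans (mul_le_mul_of_nonneg_left ?_
        (Finset.sum_nonneg fun _ _ => Nat.cast_nonneg _)) h3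
      have : (Q : ℝ) ≤ Q ^ 10 := by
        have := pow_le_pow_right₀ (by linarith : (1 : ℝ) ≤ Q) (by norm_num : 1 ≤ 10)
        rwa [pow_one] at this
      linarith)
  -- the good point
  push Not at g1 g2
  rw [not_not] at g3
  choose! jj hjj using hcov
  refine hSTAR G D M q K R ω (U ω) jj hD (hdet ω) hjj ?_ ?_ ?_
  · intro i x hx h hh
    exact hR1 i x hx h (AddSubgroup.mem_sup_left hh)
  · intro i x hx h hh
    exact hR1 i x hx h (AddSubgroup.mem_sup_right hh)
  · intro d hd
    have h1 := g1 (jj d)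
    have h2 : ((univ.filter fun v => ∃ v', v' ≠ v ∧ ω v + d - ω v' ∈ D).card : ℝ) ≤ θ * M := by
      have := g4 d hd
      rw [not_and] at this
      exact not_lt.mp (this g3)
    have h3 : 512 * Q ^ 4 * (univ.filter fun v => ∃ v', v' ≠ v ∧ ω v + d - ω v' ∈ D).card ≤ M := by
      rw [hθ, one_div_mul_eq_div, le_div_iff₀ (by positivity)] at h2
      have h4 : ((512 * Q ^ 4 * (univ.filter fun v => ∃ v', v' ≠ v ∧ ω v + d - ω v' ∈ D).card : ℕ)
          : ℝ) ≤ M := by
        push_cast
        linarith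
      exact_mod_cast h4
    have h5 : M ≤ 128 * Q ^ 4 * (univ.filter fun v => ω v ∈ A (jj d)).card := by
      have h6 : n * M ≤ n * (128 * Q ^ 4 * (univ.filter fun v => ω v ∈ A (jj d)).card) := by
        calc n * M ≤ 64 * Q ^ 4 * (A (jj d)).card * M := Nat.mul_le_mul_right _ (hAcard _)
          _ = 64 * Q ^ 4 * (M * (A (jj d)).card) := by ring
          _ ≤ 64 * Q ^ 4 * (2 * n * (univ.filter fun v => ω v ∈ A (jj d)).card) :=
            Nat.mul_le_mul_left _ h1
          _ = n * (128 * Q ^ 4 * (univ.filter fun v => ω v ∈ A (jj d)).card) := by ring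
      exact Nat.le_of_mul_le_mul_left h6 hn0
    set Y : Finset (Fin M) := (U ω).filter fun v => Reg R (jj d) (ω v) ∧
      ∀ v', v' ≠ v → ω v + d - ω v' ∉ D with hY
    have h6 : (univ.filter fun v => ω v ∈ A (jj d)) ⊆ Y ∪ ((univ \ U ω) ∪
        (univ.filter fun v => ∃ v', v' ≠ v ∧ ω v + d - ω v' ∈ D)) := by
      intro v hv
      have hv' : Reg R (jj d) (ω v) := by
        have := (Finset.mem_filter.mp hv).2
        exact (Finset.mem_filter.mp this).2
      by_cases a1 : v ∈ U ω
      · by_cases a2 : ∃ v', v' ≠ v ∧ ω v + d - ω v' ∈ D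
        · exact Finset.mem_union_right _ (Finset.mem_union_right _
            (Finset.mem_filter.mpr ⟨Finset.mem_univ _, a2⟩))
        · refine Finset.mem_union_left _ (Finset.mem_filter.mpr ⟨a1, hv', ?_⟩)
          intro v' hne hmem
          exact a2 ⟨v', hne, hmem⟩
      · exact Finset.mem_union_right _ (Finset.mem_union_left _
          (Finset.mem_sdiff.mpr ⟨Finset.mem_univ _, a1⟩))
    have h7 := (Finset.card_le_card h6).trans (Finset.card_union_le _ _)
    have h8 := Finset.card_union_le (univ \ U ω)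
      (univ.filter fun v => ∃ v', v' ≠ v ∧ ω v + d - ω v' ∈ D)
    have h9 : Q ^ 4 * D.card ≤ Q ^ 4 * Y.card := by
      have e1 : 512 * Q ^ 4 * (univ.filter fun v => ω v ∈ A (jj d)).card ≤
          512 * Q ^ 4 * (Y.card + ((univ \ U ω).card +
            (univ.filter fun v => ∃ v', v' ≠ v ∧ ω v + d - ω v' ∈ D).card)) :=
        Nat.mul_le_mul_left _ (h7.trans (Nat.add_le_add_left h8 _))
      have e2 : 4 * M ≤ 512 * Q ^ 4 * Y.card + 2 * M := by
        calc 4 * M ≤ 4 * (128 * Q ^ 4 * (univ.filter fun v => ω v ∈ A (jj d)).card) :=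
              Nat.mul_le_mul_left _ h5
          _ = 512 * Q ^ 4 * (univ.filter fun v => ω v ∈ A (jj d)).card := by ring
          _ ≤ _ := e1
          _ = 512 * Q ^ 4 * Y.card + (512 * Q ^ 4 * (univ \ U ω).card +
            512 * Q ^ 4 * (univ.filter fun v => ∃ v', v' ≠ v ∧ ω v + d - ω v' ∈ D).card) := by ring
          _ ≤ 512 * Q ^ 4 * Y.card + (M + M) := Nat.add_le_add_left (Nat.add_le_add g2 h3) _
          _ = 512 * Q ^ 4 * Y.card + 2 * M := by ring
      have e3 : M ≤ 256 * (Q ^ 4 * Y.card) := by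
        have : 512 * Q ^ 4 * Y.card = 2 * (256 * (Q ^ 4 * Y.card)) := by ring
        omega
      have e4 : 256 * (Q ^ 4 * D.card) ≤ M := by
        rw [hMdef]
        calc 256 * (Q ^ 4 * D.card) ≤ Q * (Q ^ 4 * D.card) := Nat.mul_le_mul_right _ (by omega)
          _ = Q ^ 5 * D.card := by ring
          _ ≤ Q ^ 8 * D.card :=
            Nat.mul_le_mul_right _ (Nat.pow_le_pow_right (by omega) (by norm_num))
      omega
    exact Nat.le_of_mul_le_mul_left h9 (pow_pos (by omega) 4)

end Pool.Agent.Helper4.MCP
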