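import Pool.Agent.Helper26.MCE.GoalsA

/-!
Project MCP (MP_d8224a_co, minimal complements): definitions for the lower bound
`T(G) ≥ √|G| / (log |G|)^C` for all finite abelian groups. The paper proof is in `paper.md` and in
the docstrings of GoalsA, GoalsB, GoalsC.

`M` hosts with the positions `ω v` (`ω : Fin M → G`, uniformly distributed). `full D K` is the union of
the full `K`-cosets contained in `D`, `TT μ D z = ∑ μ(w) [z - w ∈ D]`, `rr E w = #{x ∈ E : x + w ∈ E}`.
-/

set_option autoImplicit false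

namespace Pool.Agent.Helper4.MCP

open Finset Pool.Agent.Helper87.MC Pool.Agent.Helper26.MCE

variable {G : Type} [AddCommGroup G] [Fintype G]

/-- `g + D` is covered by the sets `ω v + D`, `v ∈ V'`. -/
def Bad {M : ℕ} (D : Finset G) (ω : Fin M → G) (V' : Finset (Fin M)) (g : G) : Prop :=
  ∀ d ∈ D, ∃ v ∈ V', g + d - ω v ∈ D

/-- Detection by `K`: for every set `V' ⊆ U` of hosts every bad `g` is in the `K`-coset of a host of
`V'`. -/
def Det {M : ℕ} (D : Finset G) (K : AddSubgroup G) (ω : Fin M → G) (U : Finset (Fin M)) : Prop :=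
  ∀ V' ⊆ U, ∀ g, Bad D ω V' g → ∃ v ∈ V', ω v - g ∈ K

/-- The state of the construction: the detectors `K ∈ Ks`, the remaining labels `J`, the remaining
hosts `U ω`. -/
structure State {M : ℕ} (D J : Finset G) (Ks : Set (AddSubgroup G))
    (U : (Fin M → G) → Finset (Fin M)) : Prop where
  sub : J ⊆ D
  out : ∀ e ∈ D, e ∉ J → ∃ K ∈ Ks, e ∈ full D K
  inn : ∀ e ∈ J, ∀ K ∈ Ks, e ∉ full D K
  det : ∀ ω, ∀ K ∈ Ks, Det D K ω (U ω)

open Classical in
/-- A probability measure which is closed off with respect to `D` and has pointwise small leaks from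
`J` to `D \ J`. -/
structure Law (D J : Finset G) (ε : ℝ) (μ : G → ℝ) : Prop where
  pos : ∀ w, 0 ≤ μ w
  sum : ∑ w, μ w = 1
  closed : ∀ z, z ∉ D → TT μ D z ≤ ε
  leak : ∀ e ∈ J, (∑ w : G, if e + w ∈ D ∧ e + w ∉ J then μ w else 0) ≤ ε

open Classical in
/-- A label space: the label `l` has the position `e l ∈ J` and a subgroup `W l` with
`e l + W l ⊆ D`; `m` is a probability measure with uniform marginal on `J`. -/
structure Sys (D J : Finset G) {Λ : Type} [Fintype Λ] (e : Λ → G) (W : Λ → AddSubgroup G)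
    (m : Λ → ℝ) : Prop where
  pos : ∀ l, 0 ≤ m l
  mem : ∀ l, e l ∈ J
  coset : ∀ l, ∀ h ∈ W l, e l + h ∈ D
  marg : ∀ x ∈ J, (∑ l, if e l = x then m l else 0) = 1 / (J.card : ℝ)

section labels

variable {Λ : Type} [Fintype Λ]

/-- The mass of a set of labels. -/
noncomputable def ms (m : Λ → ℝ) (B : Finset Λ) : ℝ := ∑ l ∈ B, m l

open Classical in
/-- The impurity of the shift `w`: the mass of the labels with `e l + w ∈ D`, `w ∉ W l`. -/
noncomputable def imp (D : Finset G) (e : Λ → G) (W : Λ → AddSubgroup G) (m : Λ → ℝ) (w : G) : ℝ :=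
  ∑ l, if e l + w ∈ D ∧ w ∉ W l then m l else 0

open Classical in
/-- The labels of `B` which are purely hit by the shift `w`. -/
noncomputable def TB (W : Λ → AddSubgroup G) (B : Finset Λ) (w : G) : Finset Λ :=
  B.filter fun l => w ∈ W l

open Classical in
/-- The mass of the labels of `B` hit by the shift `w`. -/
noncomputable def hit (D : Finset G) (e : Λ → G) (m : Λ → ℝ) (B : Finset Λ) (w : G) : ℝ :=
  ms m (B.filter fun l => e l + w ∈ D)

open Classical in
/-- A mixed cover of `B` at `g` by the hosts of `E`: they are popular, together they purely hit at least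
`(1-δ)` of `B`, and no one hits `(1-η)` of `B`. -/
structure Edge {M : ℕ} (D : Finset G) (e : Λ → G) (W : Λ → AddSubgroup G) (m : Λ → ℝ) (t δ η : ℝ)
    (ω : Fin M → G) (B : Finset Λ) (g : G) (E : Finset (Fin M)) : Prop where
  pop : ∀ v ∈ E, ms m B ≤ t * hit D e m B (g - ω v)
  cov : (1 - δ) * ms m B ≤ ms m (B.filter fun l => ∃ v ∈ E, g - ω v ∈ W l)
  none : ∀ v ∈ E, ms m (TB W B (g - ω v)) < (1 - η) * ms m B

/-- `F` is a maximal family of pairwise disjoint mixed covers of `B`. -/
structure Maxi {M : ℕ} (D : Finset G) (e : Λ → G) (W : Λ → AddSubgroup G) (m : Λ → ℝ) (t δ η : ℝ)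
    (ω : Fin M → G) (B : Finset Λ) (F : Finset (G × Finset (Fin M))) : Prop where
  edge : ∀ p ∈ F, Edge D e W m t δ η ω B p.1 p.2
  disj : ∀ p ∈ F, ∀ p' ∈ F, p ≠ p' → Disjoint p.2 p'.2
  maxi : ∀ g E, Edge D e W m t δ η ω B g E → ∃ p ∈ F, ¬ Disjoint E p.2

open Classical in
/-- Large deviations are excluded: the unpopular hosts cover at most `δ/2` of `g + B`. -/
def LDok {M : ℕ} (D : Finset G) (e : Λ → G) (m : Λ → ℝ) (t δ : ℝ) (ω : Fin M → G)
    (B : Finset Λ) : Prop :=
  ∀ g, ms m (B.filter fun l => ∃ v, t * hit D e m B (g - ω v) < ms m B ∧ g + e l - ω v ∈ D) ≤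
    δ / 2 * ms m B

/-! ### The potential -/

/-- `y(I)` for the sample `a`. -/
noncomputable def yy (lam : ℝ) (W : Λ → AddSubgroup G) {s : ℕ} (a : Fin s → Λ)
    (I : Finset (Fin s)) : ℝ :=
  if I = ∅ then 0 else -Real.log (lam * Nat.card (⨅ i ∈ I, W (a i) : AddSubgroup G))

/-- `z(I) = y(I) + log |I|!`. -/
noncomputable def zz (lam : ℝ) (W : Λ → AddSubgroup G) {s : ℕ} (a : Fin s → Λ)
    (I : Finset (Fin s)) : ℝ :=
  yy lam W a I + Real.log (I.card.factorial : ℝ)

open Classical in
/-- The potential of a set `B` of labels: `a` is a sample of `s` independent labels with the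
law `m`. -/
noncomputable def ZZ (lam : ℝ) (W : Λ → AddSubgroup G) (m : Λ → ℝ) (s : ℕ) (B : Finset Λ) : ℝ :=
  ∑ a : Fin s → Λ, (∏ i, m (a i)) * zz lam W a (univ.filter fun i => a i ∈ B)

end labels

/-- Every point is covered by at most `Q` hosts. -/
def Covok {M : ℕ} (D : Finset G) (Q : ℕ) (ω : Fin M → G) : Prop :=
  ∀ z, Nat.card {v : Fin M // z - ω v ∈ D} ≤ Q

/-! ### Patterns (partitions of a set of sample points, with unassigned points) -/

open Classical in
/-- The block with the leader `l`. -/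
noncomputable def blk {s : ℕ} (π : Fin s → Option (Fin s)) (l : Fin s) : Finset (Fin s) :=
  univ.filter fun i => π i = some l

/-- Canonical patterns on `I`: every point outside `I` is unassigned, every block contains its leader,
which is its smallest element. -/
def Can {s : ℕ} (I : Finset (Fin s)) (π : Fin s → Option (Fin s)) : Prop :=
  ∀ i l, π i = some l → i ∈ I ∧ π l = some l ∧ l ≤ i

open Classical in
/-- The number of the blocks. -/
noncomputable def nb {s : ℕ} (π : Fin s → Option (Fin s)) : ℕ :=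
  (univ.filter fun l => π l = some l).card

/-! ### Regions of the star colouring -/

/-- `x` belongs to the region `i`; the region `0` is the complement of the others. -/
def Reg {q : ℕ} (R : Fin (q + 1) → Finset G) (i : Fin (q + 1)) (x : G) : Prop :=
  (i ≠ 0 → x ∈ R i) ∧ ∀ i', i' ≠ 0 → i' ≠ i → x ∉ R i'

end Pool.Agent.Helper4.MCP
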