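import Pool.Agent.Helper4.MCP.GoalsC

set_option autoImplicit false

namespace Pool.Agent.Helper4.MCP

open Finset Pool.Agent.Helper87.MC Pool.Agent.Helper26.MCE

theorem ms_mono {Λ : Type} {m : Λ → ℝ} (hm : ∀ l, 0 ≤ m l) {A B : Finset Λ}
    (h : A ⊆ B) : ms m A ≤ ms m B :=
  Finset.sum_le_sum_of_subset_of_nonneg h fun l _ _ => hm l

theorem ms_nonneg {Λ : Type} {m : Λ → ℝ} (hm : ∀ l, 0 ≤ m l) (A : Finset Λ) : 0 ≤ ms m A :=
  Finset.sum_nonneg fun l _ => hm l

theorem ms_union_add {Λ : Type} [DecidableEq Λ] (m : Λ → ℝ) (A B : Finset Λ) :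
    ms m (A ∪ B) + ms m (A ∩ B) = ms m A + ms m B :=
  Finset.sum_union_inter

/-- A subgroup strictly contained in another one has at most half of its elements. -/
theorem two_mul_card_le {G : Type} [AddCommGroup G] [Fintype G] {K K' : AddSubgroup G}
    (h : K < K') : 2 * Nat.card K ≤ Nat.card K' := by
  classical
  have hdvd : Nat.card K ∣ Nat.card K' := AddSubgroup.card_dvd_of_le h.le
  obtain ⟨q, hq⟩ := hdvd
  have hpos : 0 < Nat.card K := Nat.card_pos
  have hq1 : q ≠ 1 := by
    rintro rfl
    rw [mul_one] at hq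
    exact h.ne (AddSubgroup.eq_of_le_of_card_ge h.le hq.le)
  have hq0 : q ≠ 0 := by
    rintro rfl
    rw [mul_zero] at hq
    exact (Nat.card_pos (α := K')).ne' hq
  rw [hq, mul_comm]
  exact Nat.mul_le_mul_left _ (by omega)

open Classical in
theorem goalGENK : G_GENK := by
  intro G _ _ Λ _ W m Q η B hm hη hn
  set X : Set G := {w | (1 - η) * ms m B ≤ ms m (TB W B w)} with hX
  have hB0 : 0 ≤ ms m B := ms_nonneg hm B
  have key : ∀ r : ℕ, (∃ K : AddSubgroup G, (∀ w ∈ X, w ∈ K) ∧
        (1 - Q * η) * ms m B ≤ ms m (B.filter fun l => K ≤ W l)) ∨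
      ∃ K : AddSubgroup G, 2 ^ r ≤ Nat.card K ∧
        (1 - r * η) * ms m B ≤ ms m (B.filter fun l => K ≤ W l) := by
    intro r
    induction r with
    | zero =>
      right
      refine ⟨⊥, by simp, ?_⟩
      have : B.filter (fun l => (⊥ : AddSubgroup G) ≤ W l) = B :=
        Finset.filter_true_of_mem fun l _ => bot_le
      rw [this]
      simp
    | succ r ih =>
      rcases ih with ih | ⟨K, hK1, hK2⟩
      · exact Or.inl ih
      by_cases hXK : ∀ w ∈ X, w ∈ K
      · left
        refine ⟨K, hXK, le_trans ?_ hK2⟩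
        have hcK : Nat.card K ≤ Fintype.card G := by
          rw [← Nat.card_eq_fintype_card]
          exact Nat.card_le_card_of_injective _ Subtype.val_injective
        have hrQ : r ≤ Q := by
          have : 2 ^ r ≤ 2 ^ Q := hK1.trans (hcK.trans hn)
          exact (Nat.pow_le_pow_iff_right (by norm_num)).1 this
        have hrQ' : (r : ℝ) ≤ Q := by exact_mod_cast hrQ
        have : (r : ℝ) * η ≤ Q * η := mul_le_mul_of_nonneg_right hrQ' hη
        exact mul_le_mul_of_nonneg_right (by linarith) hB0
      · right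
        push Not at hXK
        obtain ⟨w, hw, hwK⟩ := hXK
        refine ⟨K ⊔ AddSubgroup.zmultiples w, ?_, ?_⟩
        · have hlt : K < K ⊔ AddSubgroup.zmultiples w := by
            refine lt_of_le_of_ne le_sup_left fun h => hwK ?_
            rw [h]
            exact (le_sup_right : AddSubgroup.zmultiples w ≤ _) (AddSubgroup.mem_zmultiples w)
          have := two_mul_card_le hlt
          rw [pow_succ]
          omega
        · have hsub : (B.filter fun l => K ≤ W l) ∩ TB W B w ⊆
              B.filter fun l => K ⊔ AddSubgroup.zmultiples w ≤ W l := by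
            intro l hl
            simp only [mem_inter, mem_filter, TB] at hl ⊢
            refine ⟨hl.1.1, sup_le hl.1.2 ?_⟩
            rw [AddSubgroup.zmultiples_le]
            exact hl.2.2
          have h1 := ms_mono hm hsub
          have h2 := ms_union_add m (B.filter fun l => K ≤ W l) (TB W B w)
          have h3 : ms m ((B.filter fun l => K ≤ W l) ∪ TB W B w) ≤ ms m B := by
            apply ms_mono hm
            apply Finset.union_subset (Finset.filter_subset _ _)
            exact Finset.filter_subset _ _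
          have h4 : (1 - η) * ms m B ≤ ms m (TB W B w) := hw
          push_cast
          nlinarith
  rcases key (Q + 1) with ⟨K, hK1, hK2⟩ | ⟨K, hK1, _⟩
  · exact ⟨K, fun w hw => hK1 w hw, hK2⟩
  · exfalso
    have hcK : Nat.card K ≤ Fintype.card G := by
      rw [← Nat.card_eq_fintype_card]
      exact Nat.card_le_card_of_injective _ Subtype.val_injective
    have : 2 ^ (Q + 1) ≤ 2 ^ Q := hK1.trans (hcK.trans hn)
    have := (Nat.pow_le_pow_iff_right (by norm_num : 1 < 2)).1 this
    omega

end Pool.Agent.Helper4.MCP
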