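import Pool.Agent.Helper4.MCP.Defs

/-!
Project MCP (MP_d8224a_co), block A: popular hits are coset hits; the universal label space.
Every goal has a complete proof in its docstring. Notation: `n = |G|`, `T(z) = TT μ D z =
μ{w : z - w ∈ D}`.
-/

set_option autoImplicit false

namespace Pool.Agent.Helper4.MCP

open Finset Pool.Agent.Helper87.MC Pool.Agent.Helper26.MCE

open Classical in
/-- **CUBE** (cube lemma with leaks).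

PROOF. Fix `x ∈ J₁`. Let `u : Fin N → G` with `∏ π x (u i) ≠ 0`, so `x + u i ∈ J ⊆ D` for all `i`, and
suppose the cube exits. Let `Λ` be inclusion-minimal with `z := x + u_Λ ∉ D` (`u_Λ = ∑_{i ∈ Λ} u i`); so
`s := |Λ| ≥ 2` and `x + u_Λ'' ∈ D` for all `Λ'' ⊂ Λ`. Let `Λ' ⊂ Λ` be inclusion-maximal with
`x' := x + u_Λ' ∈ J` (there is one, e.g. above a singleton; `Λ' ≠ Λ`), `r := |Λ \ Λ'| ≥ 1`. Then:
(1) `z = x' + u_(Λ \ Λ') ∉ D`; (2) `z - u i = x + u_(Λ \ {i}) ∈ D` for `i ∈ Λ'`; (3) if `r ≥ 2` then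
for every `i ∈ Λ \ Λ'`: `x' + u i = x + u_(Λ' ∪ {i}) ∈ D` by minimality (`Λ' ∪ {i} ≠ Λ`) and `∉ J` by
maximality. For fixed `Λ' ⊂ Λ` let `E(x, u)` be the conjunction of `x' ∈ J`, (1), (2), (3). The
coordinates outside `Λ` sum to `1`, and `π x w ≤ c μ w`, so
`∑_{x ∈ J₁} ∑_u [E(x,u)] ∏ π x (u i) ≤ c^s ∑_{x ∈ J} ∑_{u : Λ → G} [E(x,u)] ∏_{i ∈ Λ} μ (u i)`. Change the
variable `x` to `x' = x + u_Λ'` (for fixed `u` a bijection of `G`) and use only `x' ∈ J`, (1), (2), (3):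
for fixed `x'` and `(u i)_{i ∉ Λ'}` the point `z` is fixed, `z ∉ D`, and the sum over each `u i`,
`i ∈ Λ'`, is `μ{w : z - w ∈ D} ≤ ε`; then, if `r ≥ 2`, the sum over each `u i`, `i ∈ Λ \ Λ'`, is
`μ{w : x' + w ∈ D \ J} ≤ ε`; if `r = 1` it is `≤ 1`. So the sum is `≤ c^s |J| ε^s` if `r ≥ 2` and
`≤ c^s |J| ε^(s-1)` if `r = 1`. Sum over the `≤ 2^s` resp. `s` sets `Λ'` and over `Λ`, with
`C(N,s) ≤ N^s/s!` and `x := N c ε ≤ 1/8`: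
`∑_{s ≥ 2} C(N,s) (2cε)^s ≤ ∑_{s≥2} (2x)^s/s! ≤ (2x)^2 = 4 N² c² ε² ≤ 4 N² c² ε`, and
`∑_{s ≥ 2} C(N,s) s c^s ε^(s-1) = N c ∑_{s≥2} C(N-1,s-1) (cε)^(s-1) ≤ N c (exp x - 1) ≤ 2 N c x
= 2 N² c² ε`. -/
def G_CUBE : Prop := ∀ (G : Type) [AddCommGroup G] [Fintype G] (D J J₁ : Finset G) (μ : G → ℝ)
  (ε c : ℝ) (π : G → G → ℝ) (N : ℕ), J ⊆ D → J₁ ⊆ J → Law D J ε μ → 0 ≤ ε → ε ≤ 1 → 1 ≤ c →
  N * c * ε ≤ 1 / 8 → (∀ x ∈ J₁, ∀ w, 0 ≤ π x w) → (∀ x ∈ J₁, ∑ w, π x w = 1) →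
  (∀ x ∈ J₁, ∀ w, π x w ≤ c * μ w) → (∀ x ∈ J₁, ∀ w, π x w ≠ 0 → x + w ∈ J) →
  ∑ x ∈ J₁, ∑ u : Fin N → G,
    (if ∃ Λ : Finset (Fin N), x + ∑ i ∈ Λ, u i ∉ D then ∏ i, π x (u i) else 0) ≤
      6 * (N : ℝ) ^ 2 * c ^ 2 * ε * J.card

open Classical in
/-- **NCX** (one point). `p` is the law of the shifts at `x` inside the subgroup `V`; `V` is minimal; the
cubes at `x` stay in `D`. May assume `G_LA` (Helper26.MCE; proved: Helper15.MCE.goalLA).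

PROOF. For `u : Fin j → G` let `E(u) = {y ∈ x + V : y + u_Λ ∈ D for all Λ ⊆ Fin j}`. For `u : Fin N → G`
with all `u i ∈ V` let `E_j = E(u|j)`, `j ≤ N`. Then `E_(j+1) = E_j ∩ (E_j - u_j)`. Let
`X_j = log |E_j|` if `x ∈ E_j`, and `X_j = 0` otherwise; `0 ≤ X_(j+1) ≤ X_j ≤ Q` (if `x ∈ E_(j+1)` then
`x ∈ E_j`; `|E_0| ≤ |G| ≤ 2^Q`). Let `f j` be the mean of `X_j` for independent `u_i` with the law `p`.
`f` decreases from `≤ Q` to `≥ 0` in `N` steps, so there is `j < N` with `f j - f (j+1) ≤ Q/N`. By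
Markov, `X_j - X_(j+1) ≤ κ/16` with probability `≥ 1 - 16Q/(κN) ≥ 1 - κ/8`, and `x ∈ E_N ⊆ E_(j+1)` with
probability `≥ 1 - κ/8` (the event `x ∉ E_N` is the exit of the cube). So there are `u_0, …, u_(j-1)` in
`V` for which, with `E = E_j ∋ x`: the set `S` of the `w ∈ V` with `x + w ∈ J` and
`log |E| - log |E ∩ (E - w)| ≤ κ/16` (and `x ∈ E ∩ (E - w)`) has `p(S) ≥ 1 - κ/4`. For `w ∈ S`:
`rr E w ≥ exp(-κ/16) |E| ≥ (1 - κ/16) |E|`. Let `ν = μ` on `V`, `0` elsewhere. For `z ∉ E`: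
`TT ν E z ≤ ε` (if `z ∉ x + V` it is `0`; otherwise `z + u_Λ ∉ D` for some `Λ`, and `z - w ∈ E` implies
`z + u_Λ - w ∈ D`, so `TT ν E z ≤ TT μ D (z + u_Λ) ≤ ε`). By `G_LA` (with `a` the maximum of
`ν(S ∩ Λ)` over all subgroups `Λ` with a coset in `E`):
`(1-κ/16)² ν(S)² ≤ ν(S) (a + 4ε(1 + Q))`. Here `ν(S) = μ(S) ≥ p(S) b/2 ≥ b/4`: indeed
`p w ≤ (2/b) μ w`. So `a ≥ ν(S) (1 - κ/8 - 16ε(1+Q)/b) ≥ ν(S) (1 - κ/4)`. So there are `Λ` and `x'` with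
`x' + Λ ⊆ E` and `μ(S ∩ Λ) ≥ (1 - κ/4) μ(S)`. As `p` is proportional to `μ` on the set of the `w ∈ V` with
`x + w ∈ J`: `p(Λ) ≥ p(S ∩ Λ) ≥ (1-κ/4) p(S) ≥ (1-κ/4)² > 1 - κ`. By the minimality of `V`: `Λ ⊓ V = V`,
`V ≤ Λ`, so `x' + V ⊆ E ⊆ x + V`, so `x + V = E ⊆ D` (`Λ = ∅`). -/
def G_NCX : Prop := ∀ (G : Type) [AddCommGroup G] [Fintype G] (D J : Finset G) (μ p : G → ℝ)
  (ε κ b r : ℝ) (N Q : ℕ) (x : G) (V : AddSubgroup G), Fintype.card G ≤ 2 ^ Q → 1 ≤ Q → J ⊆ D →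
  Law D J ε μ → 0 < ε → 0 < κ → κ ≤ 1 → 0 < b → x ∈ J →
  (∀ w, p w = if w ∈ V ∧ x + w ∈ J then r * μ w else 0) → ∑ w, p w = 1 → 0 ≤ r → r ≤ 2 / b →
  (∀ V' : AddSubgroup G, V' < V → (∑ w : G, if w ∈ V' then p w else 0) ≤ 1 - κ) →
  (∑ u : Fin N → G, (if ∃ Λ : Finset (Fin N), x + ∑ i ∈ Λ, u i ∉ D then ∏ i, p (u i) else 0)) ≤
    κ / 8 →
  128 * (Q : ℝ) ≤ κ ^ 2 * N → 128 * ε * (1 + Q) ≤ κ * b → ∀ h ∈ V, x + h ∈ D

open Classical in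
/-- **NC** (popular hits are coset hits). May assume `G_CUBE`, `G_NCX`.

PROOF. `ε = Q^-160`, `b = Q^-18`, `κ = Q^-19`, `N = Q^40`, `c = 2/b`. Let `J_b` be the set of the `x ∈ J`
with `μ{w : x + w ∈ J} ≥ b`. For `x ∈ J_b` let `π_x(w) = μ(w)[x + w ∈ J]/μ{w : x + w ∈ J}`; choose a
subgroup `V_x` as follows: start with `G` and, as long as the present subgroup `V` has a proper subgroup
`V'` with `π_x(V') > (1-κ) π_x(V)`, replace `V` by `V'`. As `|V'| ≤ |V|/2` there are at most `Q` steps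
(`n ≤ 2^Q`), so `π_x(V_x) ≥ (1-κ)^Q ≥ 1 - κQ ≥ 1/2`. Let `p_x = π_x` restricted to `V_x` and
normalised: `p_x w = r μ w` for `w ∈ V_x`, `x + w ∈ J`, with `r = 1/μ{w ∈ V_x : x + w ∈ J} ≤ 2/b`, and
every proper subgroup of `V_x` has `p_x`-mass `≤ 1 - κ`. By `G_CUBE` (`J₁ = J_b`, `π x = p_x`;
`N c ε = 2 Q^(40+18-160) ≤ 1/8`) the sum over `x ∈ J_b` of the exit probabilities is
`≤ 24 N² b^-2 ε |J| = 24 Q^(80+36-160) |J| = 24 Q^-44 |J|`, so at most `192 Q^-44 Q^19 |J|` of the `x ∈ J_b`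
have exit probability `> κ/8`. For the other `x ∈ J_b` `G_NCX` gives `x + V_x ⊆ D` (`128 Q ≤ κ² N = Q²`,
`128 ε (1+Q) ≤ κ b`); put `W x = V_x`. For all other `x ∈ J` put `W x = ⊥`. The sum: an `x ∈ J \ J_b`
contributes `≤ μ{w : x + w ∈ D} ≤ b + ε` (`leak`); a good `x ∈ J_b` contributes
`≤ ε + π_x(G \ V_x) ≤ ε + κ Q`; an exceptional `x` contributes `≤ 1`. Total
`≤ (b + 2ε + κ Q + 192 Q^-25) |J| ≤ Q^-17 |J|`. -/
def G_NC : Prop := ∀ (G : Type) [AddCommGroup G] [Fintype G] (D J : Finset G) (μ : G → ℝ) (Q : ℕ),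
  1000 ≤ Q → Fintype.card G ≤ 2 ^ Q → J ⊆ D → Law D J (1 / (Q : ℝ) ^ 160) μ →
  ∃ W : G → AddSubgroup G, (∀ x ∈ J, ∀ h ∈ W x, x + h ∈ D) ∧
    ∑ x ∈ J, ∑ w : G, (if x + w ∈ D ∧ w ∉ W x then μ w else 0) ≤ 1 / (Q : ℝ) ^ 17 * J.card

/-- **UNI** (universal label space). May assume `G_NC`.

PROOF. Let `Λ` be the type of the pairs `(x, V)`, `x ∈ J`, `V` a subgroup with `x + V ⊆ D` (a finite type;
`(x, ⊥)` belongs to it as `J ⊆ D`), `e (x,V) = x`, `W (x,V) = V`. Let `A` be the set of the `m : Λ → ℝ`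
with `m ≥ 0` and `∑_V m (x,V) = 1/|J|` for all `x ∈ J` (convex, compact, nonempty), `Y` the set of
the `μ : G → ℝ` with `Law D J ε μ`, `ε = Q^-160` (convex, compact). If `Y` is empty take any
`m ∈ A`. Otherwise let `f m μ = ∑_w μ w * imp D e W m w`, bilinear and continuous. By Sion's theorem
(`Mathlib/Topology/Sion.lean`, e.g. `Sion.exists_isSaddlePointOn'` or `Sion.minimax`) there is a saddle
point: `m₀ ∈ A`, `μ₀ ∈ Y` with `f m₀ μ ≤ f m₀ μ₀ ≤ f m μ₀` for all `μ ∈ Y`, `m ∈ A`. By `G_NC` for `μ₀`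
there is `W₀`; let `m (x, V) = 1/|J|` if `V = W₀ x` and `0` otherwise: `f m μ₀ =
|J|^-1 ∑_x ∑_w [x + w ∈ D, w ∉ W₀ x] μ₀ w ≤ Q^-17`. So `f m₀ μ ≤ Q^-17` for all `μ ∈ Y`. -/
def G_UNI : Prop := ∀ (G : Type) [AddCommGroup G] [Fintype G] (D J : Finset G) (Q : ℕ),
  1000 ≤ Q → Fintype.card G ≤ 2 ^ Q → J ⊆ D → J.Nonempty →
  ∃ (Λ : Type) (_ : Fintype Λ) (e : Λ → G) (W : Λ → AddSubgroup G) (m : Λ → ℝ),
    Sys D J e W m ∧ ∀ μ, Law D J (1 / (Q : ℝ) ^ 160) μ →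
      ∑ w, μ w * imp D e W m w ≤ 1 / (Q : ℝ) ^ 17

open Classical in
/-- **PURE** (almost all hosts are pure in all their bad `g`).

PROOF. Let `Imp ω` be the set of the `v ∈ U ω` in the statement and `N = ∑_ω |Imp ω|`. Suppose
`N n > Q^160 M² |D| n^M`. For `v ∈ Imp ω` choose `g`, and put `w(ω,v) = g - ω v`; let
`μ(w) = #{(ω,v) : v ∈ Imp ω, w(ω,v) = w}/N`, a probability measure. It satisfies `Law D J Q^-160`:
(closed) Let `z ∉ D` and `v ∈ Imp ω` with `z - w(ω,v) ∈ D`. As `g` is bad for `U ω` there is `v' ∈ U ω` with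
`g + (z - w) - ω v' = ω v + z - ω v' ∈ D`, and `v' ≠ v` because `z ∉ D`. For `v ≠ v'` the number of the
`ω` with `ω v + z - ω v' ∈ D` is `|D| n^(M-1)`. So `TT μ D z ≤ M² |D| n^(M-1)/N ≤ Q^-160`.
(leak) Let `x ∈ J`, `v ∈ Imp ω`, `w = w(ω,v)`, `x + w ∈ D \ J`. By `State.out` there is `K ∈ Ks` with
`x + w ∈ full D K`. By `State.det` for `V' = U ω` there is `v' ∈ U ω` with `ω v' - g ∈ K`. So
`x + w + (ω v' - g) = x + ω v' - ω v ∈ D`. If `v' = v` then `w = -(ω v' - g) ∈ K`, so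
`x = (x + w) - w ∈ full D K`, in contradiction to `State.inn`. So `v' ≠ v` and, as before, the number of
these `(ω, v)` is `≤ M² |D| n^(M-1)`. So the leak is `≤ Q^-160`.
But `∑ μ w imp w ≥ Q^-16 > Q^-17`, in contradiction to the hypothesis on `m`. -/
def G_PURE : Prop := ∀ (G : Type) [AddCommGroup G] [Fintype G] (D J : Finset G)
  (Ks : Set (AddSubgroup G)) (M Q : ℕ) (U : (Fin M → G) → Finset (Fin M)) (Λ : Type) [Fintype Λ]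
  (e : Λ → G) (W : Λ → AddSubgroup G) (m : Λ → ℝ), 2 ≤ Q → State D J Ks U →
  (∀ μ, Law D J (1 / (Q : ℝ) ^ 160) μ → ∑ w, μ w * imp D e W m w ≤ 1 / (Q : ℝ) ^ 17) →
  (∑ ω : Fin M → G, (((U ω).filter fun v => ∃ g, Bad D ω (U ω) g ∧
      1 / (Q : ℝ) ^ 16 ≤ imp D e W m (g - ω v)).card : ℝ)) * Fintype.card G ≤
    (Q : ℝ) ^ 160 * (M : ℝ) ^ 2 * D.card * (Fintype.card G : ℝ) ^ M

end Pool.Agent.Helper4.MCP
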