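import Pool.Agent.Helper4.MCP.Defs

/-!
Project MCP (MP_d8224a_co), block B: random hosts, the entropy inequality, a set of labels without
mixed covers. Every goal has a complete proof in its docstring. `n = |G|`, `k = |D|`.
-/

set_option autoImplicit false

namespace Pool.Agent.Helper4.MCP

open Finset Pool.Agent.Helper87.MC Pool.Agent.Helper26.MCE

open Classical in
/-- **LD** (large deviations).

PROOF. Fix `g`. For `ω` let `X ω` be the sum of `∏ m (l i)` over all `l : Fin Q → Λ` with all `l i ∈ B` for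
which there are pairwise different `v 0, …, v (Q-1)` with `g + e (l i) - ω (v i) ∈ D`. Suppose that the
unpopular hosts (`t hit < ms B`) cover labels of mass `> (δ/2) ms B` at `g`. Choose `l 0, v 0, l 1, v 1, …`
one after the other, all `v i` unpopular: the labels `l ∈ B` covered by `v 0, …, v (i-1)` (i.e.
`g + e l - ω v ∈ D`) have mass `≤ i ms B/t ≤ (δ/4) ms B`, so labels of mass `≥ (δ/4) ms B` are covered by an
unpopular host different from these. So `X ω ≥ ((δ/4) ms B)^Q`. On the other hand for fixed `l` and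
injective `v : Fin Q → Fin M` the number of the `ω` with `g + e (l i) - ω (v i) ∈ D` for all `i` is
`k^Q n^(M-Q)`, so `∑_ω X ω ≤ (ms B)^Q M^Q k^Q n^(M-Q)`. Hence the number of the `ω` which fail at `g` is
`≤ (4 M k/(δ n))^Q n^M`; sum over the `n` points `g`. -/
def G_LD : Prop := ∀ (G : Type) [AddCommGroup G] [Fintype G] (D : Finset G) (Λ : Type) [Fintype Λ]
  (e : Λ → G) (m : Λ → ℝ) (B : Finset Λ) (M Q : ℕ) (t δ : ℝ), (∀ l, 0 ≤ m l) → 0 < ms m B →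
  0 < δ → 0 < t → 4 * (Q : ℝ) ≤ δ * t → 1 ≤ Q →
  ((univ.filter fun ω : Fin M → G => ¬ LDok D e m t δ ω B).card : ℝ) *
    (δ * Fintype.card G) ^ Q ≤
      Fintype.card G * (4 * (M * D.card)) ^ Q * (Fintype.card G : ℝ) ^ M

open Classical in
/-- **COV** (no point is covered by more than `Q` hosts).

PROOF. For a point `z` and an injective `v : Fin Q → Fin M` the number of the `ω` with `z - ω (v i) ∈ D`
for all `i` is `k^Q n^(M-Q)`; there are at most `M^Q` such `v` and `n` points `z`. -/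
def G_COV : Prop := ∀ (G : Type) [AddCommGroup G] [Fintype G] (D : Finset G) (M Q : ℕ), 1 ≤ Q →
  (univ.filter fun ω : Fin M → G => ¬ Covok D Q ω).card * Fintype.card G ^ Q ≤
    Fintype.card G * (M * D.card) ^ Q * Fintype.card G ^ M

open Classical in
/-- **SPR** (spread of tuples of hosts). `j = |A| ≥ 1`.

PROOF. Exchange the sums: for an injective `v : A → Fin M` the number of the `ω` with
`∃ g, ∀ a, g - ω (v a) ∈ K a` is `n^(M-j)` times the number of the `x : A → G` with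
`∃ g, ∀ a, g - x a ∈ K a`. These `x` are the image of the homomorphism
`G × ∏ K a → G^A`, `(g, h) ↦ (g - h a)_a`, whose kernel is `{(g, h) : h a = g for all a} ≅ ⨅ K a`. So their
number is `n ∏ |K a| / |⨅ K a|`. There are at most `M^j` injective `v`. (If `M < j` the left side is
`0`.) -/
def G_SPR : Prop := ∀ (G : Type) [AddCommGroup G] [Fintype G] (M : ℕ) (A : Type) [Fintype A]
  [Nonempty A] (K : A → AddSubgroup G),
  (∑ ω : Fin M → G, (univ.filter fun v : A → Fin M => Function.Injective v ∧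
      ∃ g, ∀ a, g - ω (v a) ∈ K a).card) * Nat.card (⨅ a, K a : AddSubgroup G) *
    Fintype.card G ^ Fintype.card A ≤
    M ^ Fintype.card A * Fintype.card G ^ M * (Fintype.card G * ∏ a, Nat.card (K a))

open Classical in
/-- The labels of `B` assigned to the host `v` by the cover `p = (g, E)`: the first host of `E` which
purely hits the label. -/
noncomputable def own {G : Type} [AddCommGroup G] [Fintype G] {Λ : Type} [Fintype Λ] {M : ℕ}
    (W : Λ → AddSubgroup G) (ω : Fin M → G) (B : Finset Λ) (p : G × Finset (Fin M))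
    (v : Fin M) : Finset Λ :=
  B.filter fun l => v ∈ p.2 ∧ p.1 - ω v ∈ W l ∧ ∀ v' ∈ p.2, v' < v → p.1 - ω v' ∉ W l

open Classical in
/-- The pattern of the sample `a`: two sample points are in the same block if they are assigned to the
same host. -/
noncomputable def pat {G : Type} [AddCommGroup G] [Fintype G] {Λ : Type} [Fintype Λ] {M s : ℕ}
    (W : Λ → AddSubgroup G) (ω : Fin M → G) (B : Finset Λ) (p : G × Finset (Fin M))
    (a : Fin s → Λ) (i : Fin s) : Option (Fin s) :=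
  if h : (univ.filter fun i' => ∃ v, a i ∈ own W ω B p v ∧ a i' ∈ own W ω B p v).Nonempty then
    some ((univ.filter fun i' => ∃ v, a i ∈ own W ω B p v ∧ a i' ∈ own W ω B p v).min' h)
  else none

open Classical in
/-- **PAT** (properties of `own` and `pat`, purely combinatorial).

PROOF. The sets `own v` are disjoint and their union over `v ∈ E` is the set of the `l ∈ B` purely hit by
some host of `E` (take the smallest one). For a sample point `i` assigned to `v` the block of `i` is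
`{i' : a i' ∈ own v}`, its leader is the smallest element of this set. So the leaders `l` correspond
bijectively to the `v ∈ E` with `{i : a i ∈ own v} ≠ ∅`, and `blk` of the leader is this set; for all
other `l` the block `blk l` is empty. -/
def G_PAT : Prop := ∀ (G : Type) [AddCommGroup G] [Fintype G] (Λ : Type) [Fintype Λ] (M s : ℕ)
  (W : Λ → AddSubgroup G) (ω : Fin M → G) (B : Finset Λ) (p : G × Finset (Fin M)) (a : Fin s → Λ),
  (∀ v, own W ω B p v ⊆ B ∧ own W ω B p v ⊆ TB W B (p.1 - ω v)) ∧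
  (∀ v v', v ≠ v' → Disjoint (own W ω B p v) (own W ω B p v')) ∧
  (p.2.biUnion (own W ω B p) = B.filter fun l => ∃ v ∈ p.2, p.1 - ω v ∈ W l) ∧
  Can (univ.filter fun i => a i ∈ B) (pat W ω B p a) ∧
  (∀ l, pat W ω B p a l = some l → ∃ v ∈ p.2, blk (pat W ω B p a) l =
    univ.filter fun i => a i ∈ own W ω B p v) ∧
  (∀ f : Finset (Fin s) → ℝ, f ∅ = 0 → ∑ l, f (blk (pat W ω B p a) l) =
    ∑ v ∈ p.2, f (univ.filter fun i => a i ∈ own W ω B p v)) ∧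
  nb (pat W ω B p a) = (p.2.filter fun v => ∃ i, a i ∈ own W ω B p v).card

open Classical in
/-- **CNTP** (probability of a pattern). May assume `G_SPR`, `G_PAT`. `lam = M/n`.

PROOF. Let `A` be the type of the leaders of `π`, `j = nb π ≥ 1`, `K l = ⨅_{i ∈ blk π l} W (a i)`. For every
`p = (g,E) ∈ F ω` with `pat = π` choose for `l ∈ A` the `v l ∈ E` with `blk π l = {i : a i ∈ own (v l)}`;
the `v l` are different (their blocks are disjoint and not empty) and `g - ω (v l) ∈ K l`. For different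
`p, p' ∈ F ω` the sets `E`, `E'` are disjoint, so the tuples `v` are different (`A` is not empty). So the
number of the `p ∈ F ω` with `pat = π` is at most the number of the injective `v : A → Fin M` with
`∃ g, ∀ l, g - ω (v l) ∈ K l`, and by `G_SPR` the sum over `ω` is
`≤ M^j n^(M+1-j) ∏ |K l|/|⨅ K l|`. As `M n^M ≤ exp c · N`, `N = ∑_ω |F ω|`, this is
`≤ N exp c (M/n)^(j-1) ∏ |K l|/|⨅ K l|
 = N exp (c + yy(⋃ blocks) - ∑_{l ∈ A} yy(blk π l))`. The union of the blocks is a nonempty subset of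
`I = {i : a i ∈ B}` (`Can`; if there is no such `p` the sum is `0`), so `yy(⋃) ≤ yy(I)`
(`⨅_{i ∈ I} W (a i) ≤ ⨅_{i ∈ ⋃} W (a i)`). For `l ∉ A` the block is empty and `yy ∅ = 0`. -/
def G_CNTP : Prop := ∀ (G : Type) [AddCommGroup G] [Fintype G] (Λ : Type) [Fintype Λ] (M s : ℕ)
  (W : Λ → AddSubgroup G) (B : Finset Λ) (F : (Fin M → G) → Finset (G × Finset (Fin M)))
  (a : Fin s → Λ) (c : ℝ) (π : Fin s → Option (Fin s)), 1 ≤ M →
  (∀ ω, ∀ p ∈ F ω, ∀ p' ∈ F ω, p ≠ p' → Disjoint p.2 p'.2) →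
  (M : ℝ) * (Fintype.card G : ℝ) ^ M ≤ Real.exp c * ∑ ω, ((F ω).card : ℝ) →
  1 ≤ nb π →
  ∑ ω, (((F ω).filter fun p => pat W ω B p a = π).card : ℝ) ≤
    (∑ ω, ((F ω).card : ℝ)) * Real.exp (c + yy ((M : ℝ) / Fintype.card G) W a
      (univ.filter fun i => a i ∈ B) - ∑ l, yy ((M : ℝ) / Fintype.card G) W a (blk π l))

open Classical in
/-- **CRP** (Chinese restaurant weights).

PROOF. Induction on `s`. Let `W s I` be the left side. A canonical pattern `π` on `I ⊆ Fin (s+1)` restricts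
to a canonical pattern `π'` on `I' = I ∩ Fin s` (as `l ≤ i` in `Can`, the values of `π` on `Fin s` are in
`Fin s`). If the last point is not in `I`, it is unassigned and `W (s+1) I = W s I'`, `|I| = |I'|`.
Otherwise the last point is unassigned (weight factor `1`), or its own leader (factor `0! = 1`), or
joins the block of a leader `l` of `π'` (factor `m_l!/(m_l - 1)! = m_l`, `m_l = |blk π' l|`); the sum of
the factors is `2 + ∑_l m_l ≤ |I'| + 2`, and `|I| = |I'| + 1`. -/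
def G_CRP : Prop := ∀ (s : ℕ) (I : Finset (Fin s)),
  ∑ π ∈ univ.filter (fun π : Fin s → Option (Fin s) => Can I π),
    ∏ l, ((blk π l).card - 1).factorial ≤ (I.card + 1).factorial

open Classical in
/-- **ENT** (entropy inequality). May assume `G_CRP`.

PROOF. Let `P π = ∑_θ [φ θ = π] p θ`, `Q π = ∏_l (|blk π l| - 1)!/(|I|+1)!`; `P` is supported on `Can I`,
`∑_{Can I} Q ≤ 1` (`G_CRP`), `Q > 0`. Let `q = ∑_{nb π ≥ 2} P π ≤ 1`. For `nb π ≥ 2`, `P π > 0`: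
`log P π ≤ c + y I - ∑_l y(blk π l)`. For `nb π = 1`: `y I ≥ y(blk)` (monotone, the block is a subset of
`I`), for `nb π = 0`: `y I ≥ y ∅ = 0`; blocks of non-leaders are empty. So
`y I = ∑_π P π y I ≥ ∑_π P π ∑_l y(blk π l) + ∑_{nb ≥ 2} P π (log P π - c)`.
Gibbs: if `q > 0`, `∑_{nb ≥ 2} P π log (q Q π/P π) ≤ ∑_{nb ≥ 2} (q Q π - P π) ≤ 0` (`log x ≤ x - 1`), so
`∑_{nb≥2} P π log P π ≥ ∑_{nb≥2} P π log Q π + q log q`. For `π ∈ Can I`, with `m_l = |blk π l|`: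
`log Q π + log |I|! = ∑_l log (m_l - 1)! - log (|I|+1) ≥ ∑_l log m_l! - (nb π + 1) log (s+1)`
(`m_l! = m_l (m_l-1)!` and `m_l ≤ s` for the `nb π` leaders, `|I| ≤ s`). For `nb π ≤ 1`:
`log |I|! ≥ ∑_l log m_l!`. Finally `q log q ≥ -5 q log s - s^-5`: with `x = 5 log s`, the function
`q log q + x q` has the minimum `-exp(-x-1) ≥ -exp(-x) = -s^-5` (or: `log (1/(q s^5)) ≤ 1/(q s^5)`).
Add the inequalities (multiplied by `P π` and summed). -/
def G_ENT : Prop := ∀ (s : ℕ) (I : Finset (Fin s)) (Θ : Type) [Fintype Θ] (p : Θ → ℝ)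
  (φ : Θ → Fin s → Option (Fin s)) (y : Finset (Fin s) → ℝ) (c : ℝ), 2 ≤ s → (∀ θ, 0 ≤ p θ) →
  ∑ θ, p θ = 1 → 0 ≤ c → (∀ θ, Can I (φ θ)) → y ∅ = 0 → (∀ I₁ I₂, I₁ ⊆ I₂ → y I₁ ≤ y I₂) →
  (∀ π : Fin s → Option (Fin s), 2 ≤ nb π → ∑ θ, (if φ θ = π then p θ else 0) ≤
    Real.exp (c + y I - ∑ l, y (blk π l))) →
  ∑ θ, p θ * ((∑ l, (y (blk (φ θ) l) + Real.log ((blk (φ θ) l).card.factorial : ℝ))) -
      (if 2 ≤ nb (φ θ) then c + (nb (φ θ) + 1) * Real.log (s + 1) + 5 * Real.log s else 0)) ≤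
    y I + Real.log (I.card.factorial : ℝ) + 1 / (s : ℝ) ^ 5

open Classical in
/-- **SPLIT** (splitting of the potential). May assume `G_PAT`, `G_CNTP`, `G_ENT`. `lam = M/n`.

PROOF. Let `Θ` be the type of the pairs `θ = (ω, p)`, `p ∈ F ω`, `N = |Θ| = ∑_ω |F ω| > 0`, `p θ = 1/N`.
Fix a sample `a : Fin s → Λ` and let `I = {i : a i ∈ B}`, `φ θ = pat W ω B p a`, `y = yy lam W a`
(`y ∅ = 0`; `0 ≤ y`, because `lam |⨅_{i∈I} W (a i)| ≤ 1`: hypothesis; monotone). `G_CNTP` is the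
hypothesis of `G_ENT` (divide by `N`). So, with `I_v = {i : a i ∈ own v}` and `G_PAT`
(`f = zz lam W a`, `zz ∅ = 0`), the mean over `θ` of
`∑_{v ∈ E} zz(I_v) - [j ≥ 2] (c + (j+1) log (s+1) + 5 log s)`, `j = #{v ∈ E : I_v ≠ ∅}`, is
`≤ zz(I) + s^-5`. For every `v₀ ∈ E`: `[j ≥ 2](c + (j+1) log (s+1) + 5 log s) ≤
[j ≥ 2] j (c/2 + 4 log(s+1)) ≤ (c + 8 log (s+1)) #{v ∈ E, v ≠ v₀ : I_v ≠ ∅}` (`j ≤ 2 (j-1)` for `j ≥ 2`).
Let `v₀ = v₀(θ) ∈ E` be one with the largest `ms (own v)` (`E` is not empty, as `(1-δ) ms B > 0`).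
Multiply by `∏ m (a i)` and sum over `a`: `∑_a ∏ m(a i) zz(I_v) = ZZ (own v)`, the probability of
`I_v ≠ ∅` is `≤ min 1 (s ms (own v))`, and `∑_a ∏ m (a i) = 1` (`∑ m = 1`). So the mean over `θ` of
`∑_{v∈E} ZZ(own v) - (c + 8 log(s+1)) ∑_{v ≠ v₀} min 1 (s ms(own v))` is `≤ ZZ B + s^-5`, and some `θ` has
a value `≤` the mean. Take `ι = {v // v ∈ E}`, `T v = own v` for this `θ`; by `G_PAT` and `Edge`:
`∑_v ms (T v) = ms {l ∈ B : ∃ v ∈ E, g - ω v ∈ W l} ≥ (1-δ) ms B`,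
`ms (T v) ≤ ms (TB W B (g - ω v)) < (1-η) ms B`. -/
def G_SPLIT : Prop := ∀ (G : Type) [AddCommGroup G] [Fintype G] (D J : Finset G) (Λ : Type)
  [Fintype Λ] (e : Λ → G) (W : Λ → AddSubgroup G) (m : Λ → ℝ) (M s : ℕ) (t δ η c : ℝ)
  (B : Finset Λ) (F : (Fin M → G) → Finset (G × Finset (Fin M))), Sys D J e W m → J.Nonempty →
  2 ≤ s → 1 ≤ M → δ < 1 → 0 ≤ c → 0 < ms m B → M * D.card ≤ Fintype.card G →
  (∀ ω, ∀ p ∈ F ω, Edge D e W m t δ η ω B p.1 p.2) →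
  (∀ ω, ∀ p ∈ F ω, ∀ p' ∈ F ω, p ≠ p' → Disjoint p.2 p'.2) →
  (M : ℝ) * (Fintype.card G : ℝ) ^ M ≤ Real.exp c * ∑ ω, ((F ω).card : ℝ) →
  ∃ (ι : Type) (_ : Fintype ι) (T : ι → Finset Λ) (i₀ : ι), (∀ i, T i ⊆ B) ∧
    (∀ i j, i ≠ j → Disjoint (T i) (T j)) ∧ (∀ i, ms m (T i) ≤ ms m (T i₀)) ∧
    (∀ i, ms m (T i) < (1 - η) * ms m B) ∧ (1 - δ) * ms m B ≤ ∑ i, ms m (T i) ∧
    ∑ i, ZZ ((M : ℝ) / Fintype.card G) W m s (T i) ≤ ZZ ((M : ℝ) / Fintype.card G) W m s B +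
      (c + 8 * Real.log (s + 1)) * ∑ i ∈ univ.erase i₀, min 1 (s * ms m (T i)) +
      1 / (s : ℝ) ^ 5

open Classical in
/-- **ZB** (bounds for the potential).

PROOF. `∑ m = 1` (`Sys.marg`, `J` nonempty). For nonempty `I`: `⨅_{i ∈ I} W (a i)` is contained in some
`W l`, `|W l| ≤ |D|` (`e l + W l ⊆ D`), and has at least one element; so
`a₀ ≤ -log (lam |D|) ≤ yy I ≤ -log lam`. (1) `zz ≥ a₀` if `I ≠ ∅`, `zz ∅ = 0`; the probability of
`I = {i : a i ∈ B} ≠ ∅` is `1 - (1 - ms B)^s ≥ 1 - exp(-s ms B) ≥ s ms B/2` if `s ms B ≤ 1`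
(`1 - exp(-x) ≥ x/2` on `[0,1]`). (2) `zz ≤ -log lam + log s!`, and
`-log lam = log (n/M) ≤ log n`. -/
def G_ZB : Prop := ∀ (G : Type) [AddCommGroup G] [Fintype G] (D J : Finset G) (Λ : Type)
  [Fintype Λ] (e : Λ → G) (W : Λ → AddSubgroup G) (m : Λ → ℝ) (M s : ℕ) (a₀ : ℝ),
  Sys D J e W m → J.Nonempty → 1 ≤ M → 0 ≤ a₀ →
  (M : ℝ) * D.card ≤ Real.exp (-a₀) * Fintype.card G →
  (∀ B : Finset Λ, s * ms m B ≤ 1 →
    a₀ / 2 * (s * ms m B) ≤ ZZ ((M : ℝ) / Fintype.card G) W m s B) ∧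
  ZZ ((M : ℝ) / Fintype.card G) W m s univ ≤
    Real.log (Fintype.card G) + Real.log (s.factorial : ℝ)

open Classical in
/-- **TREE** (the tree of splittings), pure induction.

PROOF. Claim: `a/4 (s ms B) + 2 cc ≤ Z B` for all `B` with `1 ≤ s ms B`. Induction on `|B|` (the sets `T i`
in the hypothesis are proper subsets, as their mass is smaller). Write `t = s ms B`, `t_i = s ms (T i)`,
`β` = number of the `i` with `t_i ≥ 1`, `τ` = sum of the `t_i < 1`, `σ` = sum of the `t_i ≥ 1`;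
`σ + τ ≥ (1-δ) t`. `Z (T i) ≥ a/4 t_i + 2cc` if `t_i ≥ 1` (induction), `Z (T i) ≥ a/2 t_i` if `t_i < 1`.
The cost `cc ∑_{i ≠ i₀} min 1 t_i` is `≤ cc (β - 1 + τ)` if `β ≥ 1` (then `t_{i₀} ≥ 1`), `≤ cc τ` if
`β = 0`. So `Z B ≥ a/4 σ + 2 cc β + a/2 τ - cost - e₀`.
`β ≥ 2`: `≥ a/4 (σ + τ) + cc (β + 1) + (a/4 - cc) τ - e₀ ≥ a/4 t - a/4 δ t + 3 cc - e₀
≥ a/4 t + 2cc`, by `a/4 δ s + e₀ ≤ cc` and `t ≤ s` (`ms B ≤ 1`).
`β = 1`: `σ ≤ (1-η) t`, so `τ ≥ (η - δ) t`; `Z B ≥ a/4 (σ + τ) + 2cc + (a/4 - cc) τ - e₀ ≥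
a/4 t + 2cc + (a/4 - cc)(η-δ) t - a/4 δ t - e₀`, and `a/4 - cc ≥ 3a/16`, `t ≥ 1`, and
`3a/16 (η - δ) ≥ a/4 δ + e₀`.
`β = 0`: `Z B ≥ (a/2 - cc) τ - e₀ ≥ 7a/16 (1-δ) t - e₀ ≥ a/4 t + 2cc`, because `2cc ≤ a/8 ≤ a/8 t` and
`a/16 ≥ 7a/16 δ + e₀`. -/
def G_TREE : Prop := ∀ (Λ : Type) [Fintype Λ] (m : Λ → ℝ) (s : ℕ) (Z : Finset Λ → ℝ)
  (a cc δ η e₀ : ℝ), (∀ l, 0 ≤ m l) → ms m univ = 1 → 1 ≤ s → 0 ≤ cc → 16 * cc ≤ a → 0 ≤ e₀ →
  0 ≤ δ → δ ≤ 1 → 0 < η → η ≤ 1 → a / 4 * δ * s + e₀ ≤ cc →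
  a / 4 * δ + e₀ ≤ 3 * a / 16 * (η - δ) → 7 * a / 16 * δ + e₀ ≤ a / 16 →
  (∀ B : Finset Λ, s * ms m B ≤ 1 → a / 2 * (s * ms m B) ≤ Z B) →
  (∀ B : Finset Λ, 1 ≤ s * ms m B → ∃ (ι : Type) (_ : Fintype ι) (T : ι → Finset Λ) (i₀ : ι),
    (∀ i, T i ⊆ B) ∧ (∀ i j, i ≠ j → Disjoint (T i) (T j)) ∧ (∀ i, ms m (T i) ≤ ms m (T i₀)) ∧
    (∀ i, ms m (T i) < (1 - η) * ms m B) ∧ (1 - δ) * ms m B ≤ ∑ i, ms m (T i) ∧
    ∑ i, Z (T i) ≤ Z B + cc * ∑ i ∈ univ.erase i₀, min 1 (s * ms m (T i)) + e₀) →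
  a / 4 * s ≤ Z univ

/-- **MAXM** (maximal families exist): take a family of maximal cardinality among the finite families of
pairwise disjoint mixed covers. (A family with `p, p'` different and disjoint; `p.2` is not empty,
because `(1-δ) ms B > 0`; so adding `(g, E)` with `E` disjoint from all `p.2` increases the
cardinality.) -/
def G_MAXM : Prop := ∀ (G : Type) [AddCommGroup G] [Fintype G] (D : Finset G) (Λ : Type)
  [Fintype Λ] (e : Λ → G) (W : Λ → AddSubgroup G) (m : Λ → ℝ) (M : ℕ) (t δ η : ℝ)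
  (ω : Fin M → G) (B : Finset Λ), 0 < ms m B → δ < 1 → ∃ F, Maxi D e W m t δ η ω B F

/-- **UNSP** (a set of labels without mixed covers). May assume `G_SPLIT`, `G_ZB`, `G_TREE`, `G_MAXM`.

PROOF. `s = Q`, `t = Q^7`, `δ = Q^-5`, `η = Q^-3`, `c = 16 log Q`, `cc = c + 8 log (Q+1) ≤ 25 log Q`,
`a = 400 log Q`, `e₀ = Q^-5`, `Z = ZZ (M/n) W m Q`. For every `B` with `1 ≤ Q ms B` and every `ω` let
`F ω` be a maximal family (`G_MAXM`). Suppose `Q^16 ∑_ω |F ω| > M n^M` for all these `B`. Then `G_SPLIT`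
(`exp c = Q^16`; `M |D| ≤ n`) is the second hypothesis of `G_TREE`, `G_ZB` (`a₀ = a`,
`M |D| ≤ Q^-400 n`) is the first one. The numerical hypotheses: `16 cc ≤ 400 log Q = a`;
`a/4 δ s + e₀ = 100 log Q · Q^-4 + Q^-5 ≤ cc`; `3a/16 (η-δ) = 75 log Q (Q^-3 - Q^-5) ≥
100 log Q · Q^-5 + Q^-5`; `a/16 ≥ 7a/16 Q^-5 + Q^-5`. So `100 Q log Q ≤ Z univ ≤ log n + log Q! ≤
Q + Q log Q`, a contradiction. -/
def G_UNSP : Prop := ∀ (G : Type) [AddCommGroup G] [Fintype G] (D J : Finset G) (Λ : Type)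
  [Fintype Λ] (e : Λ → G) (W : Λ → AddSubgroup G) (m : Λ → ℝ) (M Q : ℕ), Sys D J e W m →
  J.Nonempty → 1000 ≤ Q → Fintype.card G ≤ 2 ^ Q → 1 ≤ M →
  M * D.card * Q ^ 400 ≤ Fintype.card G →
  ∃ (B : Finset Λ) (F : (Fin M → G) → Finset (G × Finset (Fin M))), 1 ≤ (Q : ℝ) * ms m B ∧
    (∀ ω, Maxi D e W m ((Q : ℝ) ^ 7) (1 / (Q : ℝ) ^ 5) (1 / (Q : ℝ) ^ 3) ω B (F ω)) ∧
    (∑ ω, (F ω).card) * Q ^ 16 ≤ M * Fintype.card G ^ M

end Pool.Agent.Helper4.MCP
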