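import Pool.Agent.Helper4.MCP.GoalsA
import Pool.Agent.Helper4.MCP.GoalsB

/-!
Project MCP (MP_d8224a_co), block C: detectors, the iteration, the star colouring, the theorem.
Every goal has a complete proof in its docstring. `n = |G|`, `k = |D|`.
-/

set_option autoImplicit false

namespace Pool.Agent.Helper4.MCP

open Finset Pool.Agent.Helper87.MC Pool.Agent.Helper26.MCE

open Classical in
/-- **GENK** (the group generated by the near periods).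

PROOF. Let `X` be the set of the `w` with `ms (TB W B w) ≥ (1-η) ms B` and `K` the subgroup generated by
`X`. Choose `w 1, w 2, … ∈ X` with `w (i+1)` not in the subgroup `K_i` generated by `w 1, …, w i`, as
long as possible: `|K_(i+1)| ≥ 2 |K_i|`, so it stops after `r ≤ Q` steps (`n ≤ 2^Q`), and then
`X ⊆ K_r`, `K = K_r`. The labels `l ∈ B` with `w i ∉ W l` for some `i` have mass `≤ r η ms B ≤ Q η ms B`;
for all others `K ≤ W l`. -/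
def G_GENK : Prop := ∀ (G : Type) [AddCommGroup G] [Fintype G] (Λ : Type) [Fintype Λ]
  (W : Λ → AddSubgroup G) (m : Λ → ℝ) (Q : ℕ) (η : ℝ) (B : Finset Λ), (∀ l, 0 ≤ m l) → 0 ≤ η →
  Fintype.card G ≤ 2 ^ Q → ∃ K : AddSubgroup G,
    (∀ w, (1 - η) * ms m B ≤ ms m (TB W B w) → w ∈ K) ∧
    (1 - Q * η) * ms m B ≤ ms m (B.filter fun l => K ≤ W l)

open Classical in
/-- **DETC** (detection; deterministic).

PROOF. Let `H = ⋃_{p ∈ F} p.2`, `V' ⊆ U₀ \ H`, `g` bad for `V'`; then `g` is bad for `U₀`. Let `E` be the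
set of the popular `v ∈ V'`, i.e. `ms B ≤ t hit(g - ω v)`.
(1) `|E| ≤ t Q`: `|E| ms B ≤ t ∑_{v ∈ E} hit(g - ω v) = t ∑_{l ∈ B} m l #{v ∈ E : g + e l - ω v ∈ D} ≤
t Q ms B` (`Covok`), `ms B > 0`.
(2) The `l ∈ B` which are not purely hit by a host of `E` have mass `≤ δ ms B`: as `e l ∈ J ⊆ D` there is
`v ∈ V'` with `g + e l - ω v ∈ D`. If some such `v` is unpopular, `l` is in the set of `LDok`, mass
`≤ (δ/2) ms B`. Otherwise `v ∈ E`, `e l + (g - ω v) ∈ D` and `g - ω v ∉ W l`; for fixed `v` these `l` have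
mass `≤ imp(g - ω v) ≤ κ₁` (hypothesis on `U₀`, `v ∈ U₀`, `g` is bad for `U₀`), together
`≤ t Q κ₁ ≤ (δ/2) ms B`.
(3) If no `v ∈ E` had `ms (TB W B (g - ω v)) ≥ (1-η) ms B`, then `(g, E)` would be an `Edge`, and by
`Maxi.maxi` `E` would meet some `p.2`, `p ∈ F`, in contradiction to `E ⊆ V'`, `V'` disjoint from `H`. So
there is `v ∈ E` with `g - ω v ∈ K` (hypothesis on `K`), `ω v - g ∈ K`. -/
def G_DETC : Prop := ∀ (G : Type) [AddCommGroup G] [Fintype G] (D J : Finset G) (Λ : Type)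
  [Fintype Λ] (e : Λ → G) (W : Λ → AddSubgroup G) (m : Λ → ℝ) (M Q : ℕ) (t δ η κ₁ : ℝ)
  (ω : Fin M → G) (B : Finset Λ) (F : Finset (G × Finset (Fin M))) (U₀ : Finset (Fin M))
  (K : AddSubgroup G), Sys D J e W m → J ⊆ D → 0 < ms m B → 0 < t → 0 < δ →
  t * Q * κ₁ ≤ δ / 2 * ms m B → Maxi D e W m t δ η ω B F → LDok D e m t δ ω B → Covok D Q ω →
  (∀ v ∈ U₀, ∀ g, Bad D ω U₀ g → imp D e W m (g - ω v) ≤ κ₁) →
  (∀ w, (1 - η) * ms m B ≤ ms m (TB W B w) → w ∈ K) →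
  Det D K ω (U₀ \ F.biUnion fun p => p.2)

open Classical in
/-- **STP** (one step). May assume `G_UNI`, `G_PURE`, `G_LD`, `G_COV`, `G_UNSP`, `G_GENK`, `G_DETC`.

PROOF. Take `Λ, e, W, m` from `G_UNI`, `B`, `F` from `G_UNSP` (`t = Q^7`, `δ = Q^-5`, `η = Q^-3`), `K` from
`G_GENK`. Let `Imp ω` be the set in `G_PURE`, `U₀ ω = U ω \ Imp ω`, and `U' ω = U₀ ω \ ⋃_{p ∈ F ω} p.2` if
`LDok` and `Covok` hold for `ω`, `U' ω = ∅` otherwise. `Det D K ω (U' ω)`: in the second case it is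
trivial (`V' = ∅`, no `g` is bad for `∅`, because `D` is nonempty); in the first case `G_DETC` with
`κ₁ = Q^-16`: `t Q κ₁ = Q^-8 ≤ δ/2 · Q^-1 ≤ (δ/2) ms B`; if `v ∈ U₀ ω` and `g` is bad for `U₀ ω`, it is bad
for `U ω`, so `imp < Q^-16`. Number of deleted hosts: `∑_ω |Imp ω| ≤ Q^160 (M k/n) M n^M ≤
Q^-332 M n^M`; if `Covok` holds each `p.2` has `≤ t Q = Q^8` elements ((1) in the proof of `G_DETC`), so
`∑ |⋃ p.2| ≤ Q^8 ∑ |F ω| ≤ Q^-8 M n^M`; the `ω` without `LDok`: `≤ n (4 M k Q^5/n)^Q n^M ≤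
2^Q (4 Q^-487)^Q n^M ≤ Q^-10 n^M`, the `ω` without `Covok`: `≤ n (Mk/n)^Q n^M ≤ Q^-10 n^M`; for each of
them `≤ M` hosts. Total `≤ Q^-7 M n^M`. The size of `J ∩ full D K`: if `K ≤ W l` then
`e l + K ⊆ D`, `e l ∈ full D K`, so by `Sys.marg` `|J ∩ full D K|/|J| = ms {l : e l ∈ full D K} ≥
ms {l ∈ B : K ≤ W l} ≥ (1 - Q^-2) ms B ≥ (1 - Q^-2)/Q ≥ 1/(2Q)`. -/
def G_STP : Prop := ∀ (G : Type) [AddCommGroup G] [Fintype G] (D J : Finset G)
  (Ks : Set (AddSubgroup G)) (M Q : ℕ) (U : (Fin M → G) → Finset (Fin M)), 10000 ≤ Q →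
  Fintype.card G ≤ 2 ^ Q → 1 ≤ M → M * D.card * Q ^ 492 ≤ Fintype.card G → State D J Ks U →
  J.Nonempty → ∃ (K : AddSubgroup G) (U' : (Fin M → G) → Finset (Fin M)),
    J.card ≤ 2 * Q * (J.filter fun x => x ∈ full D K).card ∧ (∀ ω, U' ω ⊆ U ω) ∧
    (∀ ω, Det D K ω (U' ω)) ∧ Q ^ 7 * ∑ ω, (U ω \ U' ω).card ≤ M * Fintype.card G ^ M

open Classical in
/-- **ITER** (all detectors). May assume `G_STP`.

PROOF. Start with `J = D`, `Ks = ∅`, `U ω = univ`. As long as `J ≠ ∅` apply `G_STP`: the new state is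
`J' = {x ∈ J : x ∉ full D K}`, `Ks' = Ks ∪ {K}`, `U'` (`Det` is inherited by smaller `U`). `|J'| ≤
(1 - 1/(2Q)) |J|`, so after `i` steps with `J ≠ ∅`: `1 ≤ k (1 - 1/(2Q))^i ≤ 2^Q exp(-i/(2Q))`, so
`i ≤ 2 Q² log 2 ≤ 1.4 Q²`; so after at most `1.4 Q² + 1 ≤ 2 Q²` steps `J = ∅` (`J` is nonempty at the
start, so there is at least one step). Each step deletes at most `Q^-7 M n^M` (sum over `ω`).
`full D K` is nonempty for each `K`, as `J ∩ full D K ≠ ∅`. -/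
def G_ITER : Prop := ∀ (G : Type) [AddCommGroup G] [Fintype G] (D : Finset G) (M Q : ℕ),
  10000 ≤ Q → Fintype.card G ≤ 2 ^ Q → 1 ≤ M → M * D.card * Q ^ 492 ≤ Fintype.card G →
  D.Nonempty → ∃ (q : ℕ) (K : Fin (q + 1) → AddSubgroup G) (U : (Fin M → G) → Finset (Fin M)),
    q + 1 ≤ 2 * Q ^ 2 ∧ (∀ j, (full D (K j)).Nonempty) ∧ (∀ d ∈ D, ∃ j, d ∈ full D (K j)) ∧
    (∀ ω j, Det D (K j) ω (U ω)) ∧
    Q ^ 5 * ∑ ω, (univ \ U ω).card ≤ 2 * M * Fintype.card G ^ M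

open Classical in
/-- **REG** (regions).

PROOF. For every `j` let `c_j = n/|H j| ≥ 8q²` be the number of the `H j`-cosets and `R⁰ j` a union of
`⌊c_j/(4q²)⌋ ≥ c_j/(8q²)` of them: `n/(8q²) ≤ |R⁰ j| ≤ n/(4q²)`. For `τ : Fin q → G` let
`R j = τ j + R⁰ j`, again `H j`-periodic. For `j ≠ j'`:
`∑_τ |R j ∩ R j'| = |R⁰ j| |R⁰ j'| n^(q-1)`. So `∑_τ ∑_j ∑_{j' ≠ j} |R j ∩ R j'|/|R⁰ j| ≤
n^q · q · q/(4q²) = n^q/4`, and there is `τ` with `∑_{j' ≠ j} |R j ∩ R j'| ≤ |R⁰ j|/4` for all `j`; so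
`|R j \ ⋃_{j'≠j} R j'| ≥ |R⁰ j|/2 ≥ n/(16q²)`. -/
def G_REG : Prop := ∀ (G : Type) [AddCommGroup G] [Fintype G] (q : ℕ) (H : Fin q → AddSubgroup G),
  1 ≤ q → (∀ j, 8 * q ^ 2 * Nat.card (H j) ≤ Fintype.card G) →
  ∃ R : Fin q → Finset G, (∀ j, ∀ x ∈ R j, ∀ h ∈ H j, x + h ∈ R j) ∧
    (∀ j, Fintype.card G ≤ 16 * q ^ 2 * (R j \ (univ.erase j).biUnion R).card) ∧
    4 * ∑ j, (R j).card ≤ Fintype.card G

open Classical in
/-- **BIN** (the number of hosts in a set, Chebyshev).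

PROOF. `α = |A|/n`, `Y_v = [ω v ∈ A] - α`. `∑_ω Y_v Y_v' = 0` for `v ≠ v'`, `∑_ω Y_v² = α(1-α) n^M ≤ α n^M`.
So `∑_ω (∑_v Y_v)² ≤ M α n^M`. If `2 n #{v : ω v ∈ A} < M |A|` then `(∑ Y_v)² ≥ (M α/2)²`. So the number of
these `ω` is `≤ 4/(M α) n^M`. -/
def G_BIN : Prop := ∀ (G : Type) [AddCommGroup G] [Fintype G] (M : ℕ) (A : Finset G),
  ((univ.filter fun ω : Fin M → G =>
    2 * Fintype.card G * (univ.filter fun v => ω v ∈ A).card < M * A.card).card) *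
      (M * A.card) ≤ 4 * Fintype.card G * Fintype.card G ^ M

open Classical in
/-- **MARK** (marks covered by other hosts).

PROOF. Call `v` bad if there is `v' ≠ v` with `ω v + d - ω v' ∈ D`, and choose a target `v' = τ v` for
each bad `v`. A host is the target of at most `Q` bad hosts (`ω v - (ω v' - d) ∈ D`, first condition with
`z = ω v' - d`). Suppose there are more than `θ M` bad hosts. Choose bad `v 1, …, v Q` one after the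
other such that the `2Q` hosts `v i`, `τ (v i)` are pairwise different: given `v 1, …, v (i-1)`, a bad
`v` is excluded if `v` or `τ v` is one of the `≤ 2Q` hosts used before; these are at most
`2Q + 2Q·Q ≤ θM/2` bad hosts, so there are at least `θM/2` choices. So there are at least `(θM/2)^Q`
tuples of `Q` ordered pairs with pairwise different entries with `ω v + d - ω v' ∈ D` for each pair.
For a fixed such tuple of pairs the number of these `ω` is `(k/n)^Q n^M`, and there are at most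
`M^(2Q)` tuples. So the number of the `ω` in the statement is `≤ (M² k/n)^Q n^M/(θM/2)^Q =
(2 M k/(θ n))^Q n^M`. -/
def G_MARK : Prop := ∀ (G : Type) [AddCommGroup G] [Fintype G] (D : Finset G) (M Q : ℕ) (θ : ℝ)
  (d : G), 1 ≤ Q → 0 < θ → 2 * ((Q : ℝ) * (2 * Q + 2)) ≤ θ * M →
  ((univ.filter fun ω : Fin M → G => (∀ z, (univ.filter fun v => ω v - z ∈ D).card ≤ Q) ∧
      θ * M < ((univ.filter fun v => ∃ v', v' ≠ v ∧ ω v + d - ω v' ∈ D).card : ℝ)).card : ℝ) *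
    (θ * Fintype.card G) ^ Q ≤ (2 * (M * D.card)) ^ Q * (Fintype.card G : ℝ) ^ M

open Classical in
/-- **STAR** (star colouring; deterministic).

PROOF. Choose (greedily, label after label) an injective `φ : D → U` with `Reg R (j d) (ω (φ d))` and
`ω (φ d) + d - ω v' ∉ D` for all `v' ≠ φ d`. Put `x_d = ω (φ d)`, `V' = φ(D)`,
`F = ⋃_{d ∈ D} (x_d + (D \\ {d}))`.
(A) `x_d + d ∉ F`: if `x_d + d = x_{d'} + y`, `y ∈ D`, `y ≠ d'`, then `d' ≠ d` (otherwise `y = d`),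
`φ d' ≠ φ d` and `ω (φ d) + d - ω (φ d') = y ∈ D`, a contradiction.
(B) No `g` has `g + D ⊆ F`. Suppose it has; `g` is bad for `V'` (`F ⊆ ⋃ (x_d + D)`).
Case 1: `g ∈ R i` for some `i ≠ 0`. By `Det` for `K i` there is `v = φ d` with `ω v - g ∈ K i`, so
`ω v ∈ R i` (`R i` is `K i`-periodic). As `Reg R (j d) (ω v)` holds, `j d = i` (if `j d ≠ i` then
`ω v ∉ R i`). Case 2: `g ∉ R i` for all `i ≠ 0`. By `Det` for `K 0` there is `v = φ d` with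
`ω v - g ∈ K 0`; `ω v ∉ R i` for all `i ≠ 0` (`R i` is `K 0`-periodic), so `j d = 0` (if `j d ≠ 0` then
`ω v ∈ R (j d)`). In both cases `d ∈ full D (K (j d))` and `ω v - g ∈ K (j d)`, so
`x_d + d = g + (d + (ω v - g)) ∈ g + D ⊆ F`, in contradiction to (A).
(C) `W = G \\ F`. `W + (-D) = G`: for every `g` there is `y ∈ D` with `g + y ∉ F`,
`g = (g + y) + (-y)`. Minimality: if `C' ⊂ -D` misses `-d`, then `x_d = (x_d + y) + (-y)` with
`x_d + y ∈ W`, `y ∈ D`, forces `y = d`, so `x_d ∉ W + C'`. -/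
def G_STAR : Prop := ∀ (G : Type) [AddCommGroup G] [Fintype G] (D : Finset G) (M q : ℕ)
  (K : Fin (q + 1) → AddSubgroup G) (R : Fin (q + 1) → Finset G) (ω : Fin M → G)
  (U : Finset (Fin M)) (j : G → Fin (q + 1)), D.Nonempty → (∀ i, Det D (K i) ω U) →
  (∀ d ∈ D, d ∈ full D (K (j d))) → (∀ i, ∀ x ∈ R i, ∀ h ∈ K i, x + h ∈ R i) →
  (∀ i, ∀ x ∈ R i, ∀ h ∈ K 0, x + h ∈ R i) →
  (∀ d ∈ D, D.card ≤ (U.filter fun v => Reg R (j d) (ω v) ∧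
    ∀ v', v' ≠ v → ω v + d - ω v' ∉ D).card) →
  IsMC {x : G | -x ∈ D}

open Classical in
/-- **CORP** May assume `G_ITER`, `G_REG`, `G_BIN`, `G_MARK`, `G_COV`, `G_STAR`.

PROOF. `M = Q^8 k`, so `M k Q^492 = Q^500 k² ≤ n`. Take `q`, `K`, `U` from `G_ITER`. `|K j| ≤ k`
(`x + K j ⊆ D` for `x ∈ full D (K j)`), so `H j = K j ⊔ K 0` has `≤ k²` elements and
`8 (q+1)² |H j| ≤ 32 Q^4 k² ≤ n`; `R` from `G_REG` (for `q + 1`). Let `A j = R j \\ ⋃_{j'≠j} R j'` for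
`j ≠ 0` and `A 0 = G \\ ⋃ R j'`: `x ∈ A j` implies `Reg R j x`, and `|A j| ≥ n/(16 (q+1)²) ≥ n/(64 Q^4)`
(`|A 0| ≥ 3n/4`). Bad `ω`: (1) `2n #{v : ω v ∈ A j} < M |A j|` for some `j`: by `G_BIN` at most
`2Q² · 4 · 64 Q^4/M n^M ≤ 512 Q^-2 n^M`. (2) `|univ \\ U ω| > M/(512 Q^4)`: at most
`2 Q^-5 · 512 Q^4 n^M = 1024/Q n^M ≤ n^M/8`. (3) some `z` has `#{v : ω v - z ∈ D} > Q`: by `G_COV` for
`-D` (`z' - ω v ∈ -D` iff `ω v - z' ∈ D`): `≤ n (Mk/n)^Q n^M ≤ n^M/8`. (4) not (3), and for some `d ∈ D`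
more than `θ M` hosts have `∃ v' ≠ v, ω v + d - ω v' ∈ D`, `θ = 1/(512 Q^4)`
(`θ M = Q^4 k/512 ≥ 2Q(2Q+2)`): by `G_MARK` `≤ k (1024 Q^4 M k/n)^Q n^M ≤ 2^Q (1024 Q^-488)^Q n^M ≤
n^M/8`. So some `ω` is not bad. For `d ∈ D` let `j d` be an index with `d ∈ full D (K (j d))`; the number
of the `v ∈ U ω` with `ω v ∈ A (j d)` and a good mark is
`≥ M/(128 Q^4) - M/(512 Q^4) - M/(512 Q^4) ≥ M/(256 Q^4) ≥ k`. `G_STAR`. -/
def G_CORP : Prop := ∀ (G : Type) [AddCommGroup G] [Fintype G] (D : Finset G) (Q : ℕ),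
  10000 ≤ Q → Fintype.card G ≤ 2 ^ Q → D.Nonempty → D.card ^ 2 * Q ^ 500 ≤ Fintype.card G →
  IsMC {x : G | -x ∈ D}

/-- **NUMP** (choice of `Q`).

PROOF. `c = 10^-1000`. If `n ≤ 2^10000` take `Q = 10000`: `k² Q^500 ≤ c² n (log n)^-500 10^2000 ≤ n`
(`log n ≥ log 3 ≥ 1`). Otherwise take `Q = ⌈log n/log 2⌉ ≥ 10000`; `Q ≤ log n/log 2 + 1 ≤ 2 log n`
(`1/log 2 ≤ 1.4427`, `log n ≥ 6900`), so `k² Q^500 ≤ c² n 2^500 ≤ n`. -/
def G_NUMP : Prop := ∃ c : ℝ, 0 < c ∧ ∀ n k : ℕ, 3 ≤ n → 1 ≤ k →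
  (k : ℝ) ≤ c * Real.sqrt n / Real.log n ^ 250 →
  ∃ Q : ℕ, 10000 ≤ Q ∧ n ≤ 2 ^ Q ∧ k ^ 2 * Q ^ 500 ≤ n

end Pool.Agent.Helper4.MCP
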