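import Pool.Agent.Helper4.MCP.GoalsC

set_option autoImplicit false

namespace Pool.Agent.Helper4.MCP

open Finset Pool.Agent.Helper87.MC Pool.Agent.Helper26.MCE

theorem det_mono {G : Type} [AddCommGroup G] [Fintype G] {M : ℕ} {D : Finset G}
    {K : AddSubgroup G} {ω : Fin M → G} {U U' : Finset (Fin M)} (h : U' ⊆ U)
    (hd : Det D K ω U) : Det D K ω U' := fun V' hV' g hg => hd V' (hV'.trans h) g hg

/-- After `2 Q²` steps nothing is left. -/
theorem iter_num {Q k c : ℕ} (hQ : 1 ≤ Q) (hk : k ≤ 2 ^ Q) (hc : 1 ≤ c)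
    (h : c * (2 * Q) ^ (2 * Q ^ 2) ≤ k * (2 * Q - 1) ^ (2 * Q ^ 2)) : False := by
  have hQr : (1 : ℝ) ≤ Q := by exact_mod_cast hQ
  have h1 : (c : ℝ) * (2 * (Q : ℝ)) ^ (2 * Q ^ 2) ≤ k * (2 * (Q : ℝ) - 1) ^ (2 * Q ^ 2) := by
    have h2 : ((2 * Q - 1 : ℕ) : ℝ) = 2 * (Q : ℝ) - 1 := by
      rw [Nat.cast_sub (by omega)]
      push_cast
      ring
    rw [← h2]
    exact_mod_cast h
  have h3 : (2 * (Q : ℝ) - 1) ^ (2 * Q) * 2 < (2 * (Q : ℝ)) ^ (2 * Q) := by
    have h4 : (2 * (Q : ℝ) - 1) = 2 * Q * (1 - 1 / (2 * Q)) := by field_simp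
    rw [h4, mul_pow, mul_assoc]
    have h5 : (1 - 1 / (2 * (Q : ℝ))) ^ (2 * Q) * 2 < 1 := by
      have h6 : (1 - 1 / (2 * (Q : ℝ))) ≤ Real.exp (-(1 / (2 * (Q : ℝ)))) := by
        have := Real.add_one_le_exp (-(1 / (2 * (Q : ℝ))))
        linarith
      have h7 : (0 : ℝ) ≤ 1 - 1 / (2 * (Q : ℝ)) := by
        rw [sub_nonneg, div_le_one (by positivity)]
        linarith
      have h8 : (1 - 1 / (2 * (Q : ℝ))) ^ (2 * Q) ≤ Real.exp (-1) := by
        refine (pow_le_pow_left₀ h7 h6 _).trans (le_of_eq ?_)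
        rw [← Real.exp_nat_mul]
        congr 1
        push_cast
        field_simp
      have h9 : Real.exp (-1) * 2 < 1 := by
        rw [Real.exp_neg, inv_mul_lt_iff₀ (Real.exp_pos 1)]
        have := Real.exp_one_gt_d9
        linarith
      nlinarith
    nlinarith [pow_pos (by positivity : (0 : ℝ) < 2 * Q) (2 * Q)]
  have h0 : (0 : ℝ) ≤ 2 * (Q : ℝ) - 1 := by linarith
  have h10 : ((2 * (Q : ℝ) - 1) ^ (2 * Q) * 2) ^ Q < ((2 * (Q : ℝ)) ^ (2 * Q)) ^ Q :=
    pow_lt_pow_left₀ h3 (by positivity) (by omega)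
  rw [mul_pow, ← pow_mul, ← pow_mul] at h10
  have h11 : 2 * Q * Q = 2 * Q ^ 2 := by ring
  rw [h11] at h10
  have h12 : (k : ℝ) ≤ 2 ^ Q := by exact_mod_cast hk
  have h13 : (1 : ℝ) ≤ c := by exact_mod_cast hc
  have h14 : (0 : ℝ) ≤ (2 * (Q : ℝ) - 1) ^ (2 * Q ^ 2) := by positivity
  have h15 : (0 : ℝ) ≤ (2 * (Q : ℝ)) ^ (2 * Q ^ 2) := by positivity
  nlinarith

open Classical in
theorem goalITER (hS : G_STP) : G_ITER := by
  intro G _ _ D M Q hQ hn hM hMD hD
  set N := Fintype.card G ^ M with hN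
  have key : ∀ i : ℕ, (∃ (q : ℕ) (K : Fin (q + 1) → AddSubgroup G)
      (U : (Fin M → G) → Finset (Fin M)), q + 1 ≤ i ∧ State D ∅ (Set.range K) U ∧
      (∀ j, (full D (K j)).Nonempty) ∧ Q ^ 7 * ∑ ω, (univ \ U ω).card ≤ (q + 1) * (M * N)) ∨
      ∃ (K : Fin i → AddSubgroup G) (J : Finset G) (U : (Fin M → G) → Finset (Fin M)),
        State D J (Set.range K) U ∧ (∀ j, (full D (K j)).Nonempty) ∧ J.Nonempty ∧
        J.card * (2 * Q) ^ i ≤ D.card * (2 * Q - 1) ^ i ∧
        Q ^ 7 * ∑ ω, (univ \ U ω).card ≤ i * (M * N) := by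
    intro i
    induction i with
    | zero =>
      right
      refine ⟨Fin.elim0, D, fun _ => univ, ⟨subset_rfl, fun e h1 h2 => absurd h1 h2, ?_, ?_⟩,
        fun j => j.elim0, hD, by simp, by simp⟩
      · rintro e he K ⟨j, -⟩
        exact j.elim0
      · rintro ω K ⟨j, -⟩
        exact j.elim0
    | succ i ih =>
      rcases ih with ⟨q, K, U, h1, h2⟩ | ⟨K, J, U, h1, h2, h3, h4, h5⟩
      · left
        exact ⟨q, K, U, by omega, h2⟩
      · obtain ⟨K', U', g1, g2, g3, g4⟩ := hS G D J (Set.range K) M Q U hQ hn hM hMD h1 h3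
        set J' : Finset G := J.filter fun x => x ∉ full D K' with hJ'
        set Kn : Fin (i + 1) → AddSubgroup G := Fin.cons K' K with hKn
        have hrange : Set.range Kn = insert K' (Set.range K) := Fin.range_cons _ _
        have hfne : (J.filter fun x => x ∈ full D K').Nonempty := by
          rw [← Finset.card_pos]
          by_contra hc
          have hc' : (J.filter fun x => x ∈ full D K').card = 0 := by omega
          rw [hc'] at g1
          have := Finset.card_pos.mpr h3
          omega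
        have hfull : ∀ j, (full D (Kn j)).Nonempty := by
          intro j
          refine Fin.cases ?_ (fun j => ?_) j
          · obtain ⟨x, hx⟩ := hfne
            exact ⟨x, (Finset.mem_filter.mp hx).2⟩
          · exact h2 j
        have hstate : State D J' (Set.range Kn) U' := by
          refine ⟨(Finset.filter_subset _ _).trans h1.sub, ?_, ?_, ?_⟩
          · intro e he he'
            rw [hrange]
            by_cases heJ : e ∈ J
            · refine ⟨K', Set.mem_insert _ _, ?_⟩
              by_contra hc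
              exact he' (Finset.mem_filter.mpr ⟨heJ, hc⟩)
            · obtain ⟨K₁, hK₁, h6⟩ := h1.out e he heJ
              exact ⟨K₁, Set.mem_insert_of_mem _ hK₁, h6⟩
          · intro e he K₁ hK₁
            rw [hrange] at hK₁
            have he' := Finset.mem_filter.mp he
            rcases hK₁ with rfl | hK₁
            · exact he'.2
            · exact h1.inn e he'.1 K₁ hK₁
          · intro ω K₁ hK₁
            rw [hrange] at hK₁
            rcases hK₁ with rfl | hK₁
            · exact g3 ω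
            · exact det_mono (g2 ω) (h1.det ω K₁ hK₁)
        have hsum : Q ^ 7 * ∑ ω, (univ \ U' ω).card ≤ (i + 1) * (M * N) := by
          have h6 : ∑ ω, (univ \ U' ω).card ≤ ∑ ω, (univ \ U ω).card + ∑ ω, (U ω \ U' ω).card := by
            rw [← Finset.sum_add_distrib]
            refine Finset.sum_le_sum fun ω _ => ?_
            refine le_trans (Finset.card_le_card ?_) (Finset.card_union_le _ _)
            intro v hv
            simp only [mem_sdiff, mem_univ, true_and, mem_union] at hv ⊢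
            tauto
          calc Q ^ 7 * ∑ ω, (univ \ U' ω).card
              ≤ Q ^ 7 * (∑ ω, (univ \ U ω).card + ∑ ω, (U ω \ U' ω).card) :=
                Nat.mul_le_mul_left _ h6
            _ = Q ^ 7 * ∑ ω, (univ \ U ω).card + Q ^ 7 * ∑ ω, (U ω \ U' ω).card := by ring
            _ ≤ i * (M * N) + M * N := Nat.add_le_add h5 g4
            _ = (i + 1) * (M * N) := by ring
        by_cases hJe : J' = ∅
        · left
          rw [hJe] at hstate
          exact ⟨i, Kn, U', le_rfl, hstate, hfull, hsum⟩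
        · right
          refine ⟨Kn, J', U', hstate, hfull, Finset.nonempty_iff_ne_empty.mpr hJe, ?_, ?_⟩
          · have h6 : (J.filter fun x => x ∈ full D K').card + J'.card = J.card :=
              Finset.card_filter_add_card_filter_not _
            have h7 : J'.card * (2 * Q) ≤ J.card * (2 * Q - 1) := by
              zify [show 1 ≤ 2 * Q by omega] at *
              nlinarith
            calc J'.card * (2 * Q) ^ (i + 1) = J'.card * (2 * Q) * (2 * Q) ^ i := by ring
              _ ≤ J.card * (2 * Q - 1) * (2 * Q) ^ i := Nat.mul_le_mul_right _ h7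
              _ = J.card * (2 * Q) ^ i * (2 * Q - 1) := by ring
              _ ≤ D.card * (2 * Q - 1) ^ i * (2 * Q - 1) := Nat.mul_le_mul_right _ h4
              _ = D.card * (2 * Q - 1) ^ (i + 1) := by ring
          · push_cast
            exact hsum
  rcases key (2 * Q ^ 2) with ⟨q, K, U, h1, h2, h3, h4⟩ | ⟨K, J, U, h1, h2, h3, h4, h5⟩
  · refine ⟨q, K, U, h1, h3, ?_, ?_, ?_⟩
    · intro d hd
      obtain ⟨K', ⟨j, rfl⟩, hj⟩ := h2.out d hd (Finset.notMem_empty d)
      exact ⟨j, hj⟩
    · intro ω j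
      exact h2.det ω (K j) ⟨j, rfl⟩
    · have h5 : Q ^ 2 * (Q ^ 5 * ∑ ω, (univ \ U ω).card) ≤ Q ^ 2 * (2 * M * N) := by
        calc Q ^ 2 * (Q ^ 5 * ∑ ω, (univ \ U ω).card) = Q ^ 7 * ∑ ω, (univ \ U ω).card := by ring
          _ ≤ (q + 1) * (M * N) := h4
          _ ≤ 2 * Q ^ 2 * (M * N) := Nat.mul_le_mul_right _ h1
          _ = Q ^ 2 * (2 * M * N) := by ring
      exact Nat.le_of_mul_le_mul_left h5 (pow_pos (by omega) 2)
  · exfalso
    exact iter_num (by omega) ((Finset.card_le_univ D).trans hn) (Finset.card_pos.mpr h3) h4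

end Pool.Agent.Helper4.MCP
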