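import Pool.Agent.Helper4.MCP.GENK

set_option autoImplicit false

namespace Pool.Agent.Helper4.MCP

open Finset Pool.Agent.Helper87.MC Pool.Agent.Helper26.MCE

open Classical in
theorem edge_nonempty {G : Type} [AddCommGroup G] [Fintype G] {Λ : Type} [Fintype Λ] {M : ℕ}
    {D : Finset G} {e : Λ → G} {W : Λ → AddSubgroup G} {m : Λ → ℝ} {t δ η : ℝ} {ω : Fin M → G}
    {B : Finset Λ} {g : G} {E : Finset (Fin M)} (hB : 0 < ms m B) (hδ : δ < 1)
    (h : Edge D e W m t δ η ω B g E) : E.Nonempty := by
  rw [Finset.nonempty_iff_ne_empty]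
  rintro rfl
  have h1 := h.cov
  have h2 : (B.filter fun l => ∃ v ∈ (∅ : Finset (Fin M)), g - ω v ∈ W l) = ∅ := by
    ext l
    simp
  rw [h2] at h1
  have h3 : ms m (∅ : Finset Λ) = 0 := Finset.sum_empty
  rw [h3] at h1
  have : 0 < (1 - δ) * ms m B := mul_pos (by linarith) hB
  linarith

open Classical in
theorem goalMAXM : G_MAXM := by
  intro G _ _ D Λ _ e W m M t δ η ω B hB hδ
  let P : Finset (G × Finset (Fin M)) → Prop := fun F =>
    (∀ p ∈ F, Edge D e W m t δ η ω B p.1 p.2) ∧
      ∀ p ∈ F, ∀ p' ∈ F, p ≠ p' → Disjoint p.2 p'.2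
  have hne : (univ.filter P).Nonempty := by
    refine ⟨∅, ?_⟩
    rw [mem_filter]
    exact ⟨mem_univ _, by simp, by simp⟩
  obtain ⟨F, hF, hmax⟩ := Finset.exists_max_image (univ.filter P) Finset.card hne
  rw [mem_filter] at hF
  obtain ⟨-, hF1, hF2⟩ := hF
  refine ⟨F, hF1, hF2, ?_⟩
  intro g E hE
  by_contra hcon
  push Not at hcon
  have hEne := edge_nonempty hB hδ hE
  have hnot : (g, E) ∉ F := by
    intro hmem
    have := hcon _ hmem
    simp only [disjoint_self] at this
    exact hEne.ne_empty this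
  have hP : P (insert (g, E) F) := by
    constructor
    · intro p hp
      rw [mem_insert] at hp
      rcases hp with rfl | hp
      · exact hE
      · exact hF1 p hp
    · intro p hp p' hp' hne'
      rw [mem_insert] at hp hp'
      rcases hp with rfl | hp <;> rcases hp' with rfl | hp'
      · exact absurd rfl hne'
      · exact hcon p' hp'
      · exact (hcon p hp).symm
      · exact hF2 p hp p' hp' hne'
  have h1 := hmax (insert (g, E) F) (by rw [mem_filter]; exact ⟨mem_univ _, hP⟩)
  rw [Finset.card_insert_of_notMem hnot] at h1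
  omega

end Pool.Agent.Helper4.MCP
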