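import Pool.Agent.Helper4.MCP.UNSP

set_option autoImplicit false

namespace Pool.Agent.Helper4.MCP

open Finset Pool.Agent.Helper87.MC Pool.Agent.Helper26.MCE

open Classical in
/-- A family of popular hosts has at most `t Q` elements. -/
theorem popular_card {G : Type} [AddCommGroup G] [Fintype G] {D : Finset G} {Λ : Type} [Fintype Λ]
    {e : Λ → G} {m : Λ → ℝ} {M Q : ℕ} {t : ℝ} {ω : Fin M → G} {B : Finset Λ} (hm : ∀ l, 0 ≤ m l)
    (hB : 0 < ms m B) (ht : 0 < t) (hC : Covok D Q ω) (g : G) (E : Finset (Fin M))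
    (hE : ∀ v ∈ E, ms m B ≤ t * hit D e m B (g - ω v)) : (E.card : ℝ) ≤ t * Q := by
  have h1 : (E.card : ℝ) * ms m B ≤ t * ∑ v ∈ E, hit D e m B (g - ω v) := by
    rw [← nsmul_eq_mul, Finset.mul_sum, ← Finset.sum_const]
    exact Finset.sum_le_sum hE
  have h2 : ∑ v ∈ E, hit D e m B (g - ω v) ≤ Q * ms m B := by
    unfold hit ms
    simp_rw [Finset.sum_filter]
    rw [Finset.sum_comm, Finset.mul_sum]
    refine Finset.sum_le_sum fun l _ => ?_
    rw [← Finset.sum_filter, Finset.sum_const, nsmul_eq_mul]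
    refine mul_le_mul_of_nonneg_right ?_ (hm l)
    have h3 := hC (g + e l)
    rw [Nat.card_eq_fintype_card, Fintype.card_subtype] at h3
    have h4 : (E.filter fun v => e l + (g - ω v) ∈ D).card ≤
        (univ.filter fun v => g + e l - ω v ∈ D).card := by
      refine Finset.card_le_card fun v hv => ?_
      simp only [mem_filter, mem_univ, true_and] at hv ⊢
      have h5 : g + e l - ω v = e l + (g - ω v) := by abel
      rw [h5]
      exact hv.2
    exact_mod_cast h4.trans h3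
  have h3 : (E.card : ℝ) * ms m B ≤ t * Q * ms m B := by
    refine h1.trans ?_
    rw [mul_assoc]
    exact mul_le_mul_of_nonneg_left h2 ht.le
  exact le_of_mul_le_mul_right h3 hB

theorem pow_trick {S N a b : ℝ} {n Q : ℕ} (hS : S * a ^ Q ≤ n * b ^ Q * N) (hn : n ≤ 2 ^ Q)
    (hb : 0 ≤ b) (hN : 0 ≤ N) (ha : 0 < a) (hQ : 1 ≤ Q) (hab : 2 * b * (Q : ℝ) ^ 10 ≤ a) :
    S * (Q : ℝ) ^ 10 ≤ N := by
  have hQr : (1 : ℝ) ≤ Q := by exact_mod_cast hQ
  have h0 : (0 : ℝ) < (Q : ℝ) ^ 10 := by positivity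
  have h1 : (Q : ℝ) ^ 10 ≤ ((Q : ℝ) ^ 10) ^ Q := by
    conv_lhs => rw [← pow_one ((Q : ℝ) ^ 10)]
    exact pow_le_pow_right₀ (one_le_pow₀ hQr) hQ
  have hn' : (n : ℝ) ≤ 2 ^ Q := by exact_mod_cast hn
  have h2 : S * (Q : ℝ) ^ 10 * a ^ Q ≤ N * a ^ Q := by
    calc S * (Q : ℝ) ^ 10 * a ^ Q = S * a ^ Q * (Q : ℝ) ^ 10 := by ring
      _ ≤ n * b ^ Q * N * (Q : ℝ) ^ 10 := mul_le_mul_of_nonneg_right hS h0.le
      _ ≤ 2 ^ Q * b ^ Q * N * ((Q : ℝ) ^ 10) ^ Q := by gcongr
      _ = N * (2 * b * (Q : ℝ) ^ 10) ^ Q := by rw [mul_pow, mul_pow]; ring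
      _ ≤ N * a ^ Q := by gcongr
  exact le_of_mul_le_mul_right h2 (by positivity)

theorem stp_num {Q M N S1 S2 S3 S4 S : ℝ} (hQ : 1000 ≤ Q) (hM : 1 ≤ M) (hN : 0 ≤ N)
    (h1 : 0 ≤ S1) (h2 : 0 ≤ S2) (h3 : 0 ≤ S3) (h4 : 0 ≤ S4) (e1 : S1 * Q ^ 10 ≤ M * N)
    (e2 : S2 * Q ^ 16 ≤ M * N) (e3 : S3 * Q ^ 10 ≤ N) (e4 : S4 * Q ^ 10 ≤ N)
    (hS : S ≤ S1 + S2 * Q ^ 8 + M * (S3 + S4)) : Q ^ 7 * S ≤ M * N := by
  have hQ3 : (1000 : ℝ) ≤ Q ^ 3 := by
    have : Q ≤ Q ^ 3 := by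
      have := pow_le_pow_right₀ (by linarith : (1 : ℝ) ≤ Q) (by norm_num : 1 ≤ 3)
      rwa [pow_one] at this
    linarith
  have f1 : Q ^ 7 * S1 * 1000 ≤ M * N := by
    calc Q ^ 7 * S1 * 1000 ≤ Q ^ 7 * S1 * Q ^ 3 := by gcongr
      _ = S1 * Q ^ 10 := by ring
      _ ≤ M * N := e1
  have f2 : Q ^ 7 * (S2 * Q ^ 8) * 1000 ≤ M * N := by
    calc Q ^ 7 * (S2 * Q ^ 8) * 1000 ≤ Q ^ 7 * (S2 * Q ^ 8) * Q := by gcongr
      _ = S2 * Q ^ 16 := by ring
      _ ≤ M * N := e2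
  have f3 : Q ^ 7 * S3 * 1000 ≤ N := by
    calc Q ^ 7 * S3 * 1000 ≤ Q ^ 7 * S3 * Q ^ 3 := by gcongr
      _ = S3 * Q ^ 10 := by ring
      _ ≤ N := e3
  have f4 : Q ^ 7 * S4 * 1000 ≤ N := by
    calc Q ^ 7 * S4 * 1000 ≤ Q ^ 7 * S4 * Q ^ 3 := by gcongr
      _ = S4 * Q ^ 10 := by ring
      _ ≤ N := e4
  have f3' : M * (Q ^ 7 * S3 * 1000) ≤ M * N := by gcongr
  have f4' : M * (Q ^ 7 * S4 * 1000) ≤ M * N := by gcongr
  have hMN : 0 ≤ M * N := by positivity
  calc Q ^ 7 * S ≤ Q ^ 7 * (S1 + S2 * Q ^ 8 + M * (S3 + S4)) := by gcongr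
    _ = Q ^ 7 * S1 + Q ^ 7 * (S2 * Q ^ 8) + M * (Q ^ 7 * S3) + M * (Q ^ 7 * S4) := by ring
    _ ≤ M * N := by linarith

open Classical in
theorem stp_count {Ω : Type} [Fintype Ω] {M : ℕ} (U U' Imp H : Ω → Finset (Fin M))
    (P1 P2 : Ω → Prop) (f : Ω → ℝ) (h1 : ∀ ω, P1 ω → P2 ω → U ω \ U' ω ⊆ Imp ω ∪ H ω)
    (h2 : ∀ ω, P1 ω → P2 ω → ((H ω).card : ℝ) ≤ f ω) (hf : ∀ ω, 0 ≤ f ω) :
    ∑ ω, ((U ω \ U' ω).card : ℝ) ≤ ∑ ω, ((Imp ω).card : ℝ) + ∑ ω, f ω +
      M * (((univ.filter fun ω => ¬ P1 ω).card : ℝ) + (univ.filter fun ω => ¬ P2 ω).card) := by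
  have hpt : ∀ ω, ((U ω \ U' ω).card : ℝ) ≤ ((Imp ω).card : ℝ) + f ω +
      M * ((if ¬ P1 ω then 1 else 0) + (if ¬ P2 ω then 1 else 0)) := by
    intro ω
    have hM0 : (0 : ℝ) ≤ M := Nat.cast_nonneg _
    by_cases h : P1 ω ∧ P2 ω
    · have h3 : (U ω \ U' ω).card ≤ (Imp ω).card + (H ω).card :=
        (Finset.card_le_card (h1 ω h.1 h.2)).trans (Finset.card_union_le _ _)
      have h4 := h2 ω h.1 h.2
      have h5 : ((U ω \ U' ω).card : ℝ) ≤ (Imp ω).card + (H ω).card := by exact_mod_cast h3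
      have h6 : (0 : ℝ) ≤ M * ((if ¬ P1 ω then 1 else 0) + (if ¬ P2 ω then 1 else 0)) := by
        apply mul_nonneg hM0
        apply add_nonneg <;> split_ifs <;> norm_num
      linarith
    · have h3 : ((U ω \ U' ω).card : ℝ) ≤ M := by
        have : (U ω \ U' ω).card ≤ Fintype.card (Fin M) := Finset.card_le_univ _
        rw [Fintype.card_fin] at this
        exact_mod_cast this
      have h4 : (1 : ℝ) ≤ (if ¬ P1 ω then 1 else 0) + (if ¬ P2 ω then 1 else 0) := by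
        rcases not_and_or.mp h with h | h
        · rw [if_pos h]
          have : (0 : ℝ) ≤ (if ¬ P2 ω then 1 else 0) := by split_ifs <;> norm_num
          linarith
        · rw [if_pos h]
          have : (0 : ℝ) ≤ (if ¬ P1 ω then 1 else 0) := by split_ifs <;> norm_num
          linarith
      have h5 : (0 : ℝ) ≤ (Imp ω).card := Nat.cast_nonneg _
      have h6 := hf ω
      have h7 : (M : ℝ) * 1 ≤ M * ((if ¬ P1 ω then 1 else 0) + (if ¬ P2 ω then 1 else 0)) :=
        mul_le_mul_of_nonneg_left h4 hM0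
      linarith
  refine (Finset.sum_le_sum fun ω _ => hpt ω).trans (le_of_eq ?_)
  rw [Finset.sum_add_distrib, Finset.sum_add_distrib, ← Finset.mul_sum,
    Finset.sum_add_distrib, Finset.sum_boole, Finset.sum_boole]

theorem bad_mono {G : Type} [AddCommGroup G] [Fintype G] {M : ℕ} {D : Finset G} {ω : Fin M → G}
    {V V' : Finset (Fin M)} (h : V ⊆ V') {g : G} (hb : Bad D ω V g) : Bad D ω V' g := by
  intro d hd
  obtain ⟨v, hv, h1⟩ := hb d hd
  exact ⟨v, h hv, h1⟩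

open Classical in
theorem goalSTP (hU : G_UNI) (hP : G_PURE) (hLD : G_LD) (hCOV : G_COV) (hUN : G_UNSP)
    (hDC : G_DETC) : G_STP := by
  intro G _ _ D J Ks M Q U hQ hn hM hMD hst hJ
  have hQr : (10000 : ℝ) ≤ Q := by exact_mod_cast hQ
  have hQ0 : (0 : ℝ) < Q := by linarith
  have hn0 : 0 < Fintype.card G := Fintype.card_pos
  have hn0r : (0 : ℝ) < Fintype.card G := by exact_mod_cast hn0
  have hJD : J ⊆ D := hst.sub
  have hMDr : (M : ℝ) * D.card * (Q : ℝ) ^ 492 ≤ Fintype.card G := by exact_mod_cast hMD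
  obtain ⟨Λ, _, e, W, m, hsys, himp⟩ := hU G D J Q (by omega) hn hJD hJ
  have hMD400 : M * D.card * Q ^ 400 ≤ Fintype.card G := by
    refine le_trans ?_ hMD
    exact Nat.mul_le_mul_left _ (Nat.pow_le_pow_right (by omega) (by norm_num))
  obtain ⟨B, F, hB1, hF1, hF2⟩ := hUN G D J Λ e W m M Q hsys hJ (by omega) hn hM hMD400
  have hBpos : 0 < ms m B := by
    by_contra hc
    push Not at hc
    have : (Q : ℝ) * ms m B ≤ 0 := mul_nonpos_of_nonneg_of_nonpos hQ0.le hc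
    linarith
  obtain ⟨K, hK1, hK2⟩ := goalGENK G Λ W m Q (1 / (Q : ℝ) ^ 3) B hsys.pos (by positivity) hn
  set Imp : (Fin M → G) → Finset (Fin M) := fun ω => (U ω).filter fun v =>
    ∃ g, Bad D ω (U ω) g ∧ 1 / (Q : ℝ) ^ 16 ≤ imp D e W m (g - ω v) with hImp
  set U₀ : (Fin M → G) → Finset (Fin M) := fun ω => U ω \ Imp ω with hU₀
  set ok : (Fin M → G) → Prop := fun ω =>
    LDok D e m ((Q : ℝ) ^ 7) (1 / (Q : ℝ) ^ 5) ω B ∧ Covok D Q ω with hok
  set U' : (Fin M → G) → Finset (Fin M) := fun ω =>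
    if ok ω then U₀ ω \ (F ω).biUnion (fun p => p.2) else ∅ with hU'
  have hDne : D.Nonempty := hJ.mono hJD
  refine ⟨K, U', ?_, ?_, ?_, ?_⟩
  · -- the size of the full part
    have h1 : ms m (B.filter fun l => K ≤ W l) ≤
        ∑ x ∈ J.filter (fun x => x ∈ full D K), ∑ l, (if e l = x then m l else 0) := by
      rw [Finset.sum_comm]
      have h2 : ∀ l, (∑ x ∈ J.filter (fun x => x ∈ full D K), if e l = x then m l else 0) =
          if e l ∈ full D K then m l else 0 := by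
        intro l
        rw [Finset.sum_ite_eq]
        have := hsys.mem l
        simp [this]
      simp_rw [h2]
      rw [← Finset.sum_filter]
      refine Finset.sum_le_sum_of_subset_of_nonneg ?_ fun l _ _ => hsys.pos l
      intro l hl
      simp only [mem_filter, mem_univ, true_and] at hl ⊢
      simp only [full, mem_filter]
      refine ⟨hJD (hsys.mem l), fun h hh => hsys.coset l h (hl.2 hh)⟩
    have h2 : ∑ x ∈ J.filter (fun x => x ∈ full D K), ∑ l, (if e l = x then m l else 0) =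
        ((J.filter fun x => x ∈ full D K).card : ℝ) / J.card := by
      have h3 : ∑ x ∈ J.filter (fun x => x ∈ full D K), ∑ l, (if e l = x then m l else 0) =
          ∑ x ∈ J.filter (fun x => x ∈ full D K), 1 / (J.card : ℝ) := by
        refine Finset.sum_congr rfl fun x hx => ?_
        rw [← hsys.marg x (Finset.mem_filter.mp hx).1]
      rw [h3, Finset.sum_const, nsmul_eq_mul]
      ring
    have hJpos : (0 : ℝ) < J.card := by exact_mod_cast Finset.card_pos.mpr hJ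
    have h4 : 1 / (2 * (Q : ℝ)) ≤ ((J.filter fun x => x ∈ full D K).card : ℝ) / J.card := by
      refine le_trans ?_ ((hK2.trans h1).trans h2.le)
      have h5 : (Q : ℝ) * (1 / (Q : ℝ) ^ 3) ≤ 1 / 2 := by
        have : (Q : ℝ) * (1 / (Q : ℝ) ^ 3) = 1 / (Q : ℝ) ^ 2 := by field_simp
        rw [this]
        apply one_div_le_one_div_of_le (by norm_num)
        nlinarith
      have h6 : 1 / (Q : ℝ) ≤ ms m B := by
        rw [div_le_iff₀ hQ0]
        linarith
      calc 1 / (2 * (Q : ℝ)) = 1 / 2 * (1 / Q) := by field_simp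
        _ ≤ (1 - Q * (1 / (Q : ℝ) ^ 3)) * ms m B := by
          apply mul_le_mul (by linarith) h6 (by positivity) (by linarith)
    rw [div_le_div_iff₀ (by positivity) hJpos] at h4
    have h5 : (J.card : ℝ) ≤ 2 * Q * (J.filter fun x => x ∈ full D K).card := by linarith
    exact_mod_cast h5
  · intro ω
    simp only [hU']
    split_ifs with h
    · exact (Finset.sdiff_subset).trans Finset.sdiff_subset
    · exact Finset.empty_subset _
  · intro ω
    simp only [hU']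
    split_ifs with h
    · refine hDC G D J Λ e W m M Q ((Q : ℝ) ^ 7) (1 / (Q : ℝ) ^ 5) (1 / (Q : ℝ) ^ 3)
        (1 / (Q : ℝ) ^ 16) ω B (F ω) (U₀ ω) K hsys hJD hBpos (by positivity) (by positivity) ?_
        (hF1 ω) h.1 h.2 ?_ hK1
      · have h1 : (Q : ℝ) ^ 7 * Q * (1 / (Q : ℝ) ^ 16) = 1 / (Q : ℝ) ^ 5 * (1 / Q * (1 / Q ^ 2)) := by
          field_simp
        rw [h1]
        have h6 : 1 / (Q : ℝ) ≤ ms m B := by
          rw [div_le_iff₀ hQ0]
          linarith
        have h7 : 1 / (Q : ℝ) ^ 2 ≤ 1 / 2 := by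
          apply one_div_le_one_div_of_le (by norm_num)
          nlinarith
        calc 1 / (Q : ℝ) ^ 5 * (1 / Q * (1 / Q ^ 2)) ≤ 1 / (Q : ℝ) ^ 5 * (ms m B * (1 / 2)) := by
              gcongr
          _ = 1 / (Q : ℝ) ^ 5 / 2 * ms m B := by ring
      · intro v hv g hb
        simp only [hU₀, mem_sdiff, hImp, mem_filter, not_and] at hv
        have h1 := hv.2 hv.1
        by_contra hc
        push Not at hc
        exact h1 ⟨g, bad_mono Finset.sdiff_subset hb, hc.le⟩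
    · intro V' hV' g hb
      exfalso
      obtain ⟨d, hd⟩ := hDne
      obtain ⟨v, hv, -⟩ := hb d hd
      exact absurd (hV' hv) (Finset.notMem_empty v)
  · -- counting
    set N : ℝ := (Fintype.card G : ℝ) ^ M with hN
    have hNpos : 0 < N := by positivity
    have hMr : (1 : ℝ) ≤ M := by exact_mod_cast hM
    set S1 : ℝ := ∑ ω, ((Imp ω).card : ℝ) with hS1
    set S2 : ℝ := ∑ ω, ((F ω).card : ℝ) with hS2
    set S3 : ℝ := ((univ.filter fun ω : Fin M → G =>
      ¬ LDok D e m ((Q : ℝ) ^ 7) (1 / (Q : ℝ) ^ 5) ω B).card : ℝ) with hS3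
    set S4 : ℝ := ((univ.filter fun ω : Fin M → G => ¬ Covok D Q ω).card : ℝ) with hS4
    have e1 : S1 * Fintype.card G ≤ (Q : ℝ) ^ 160 * (M : ℝ) ^ 2 * D.card * N :=
      hP G D J Ks M Q U Λ e W m (by omega) hst himp
    have e1' : S1 * (Q : ℝ) ^ 10 ≤ M * N := by
      have h1 : S1 * (Q : ℝ) ^ 10 * Fintype.card G ≤ M * N * Fintype.card G := by
        calc S1 * (Q : ℝ) ^ 10 * Fintype.card G = S1 * Fintype.card G * (Q : ℝ) ^ 10 := by ring
          _ ≤ (Q : ℝ) ^ 160 * (M : ℝ) ^ 2 * D.card * N * (Q : ℝ) ^ 10 := by gcongr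
          _ = M * N * (M * D.card * (Q : ℝ) ^ 170) := by ring
          _ ≤ M * N * (M * D.card * (Q : ℝ) ^ 492) := by
            gcongr
            · linarith
            · norm_num
          _ ≤ M * N * Fintype.card G := by gcongr
      exact le_of_mul_le_mul_right h1 hn0r
    have e2 : S2 * (Q : ℝ) ^ 16 ≤ M * N := by
      have := hF2
      rw [hS2, hN]
      exact_mod_cast this
    have e3 : S3 * (Q : ℝ) ^ 10 ≤ N := by
      have h1 := hLD G D Λ e m B M Q ((Q : ℝ) ^ 7) (1 / (Q : ℝ) ^ 5) hsys.pos hBpos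
        (by positivity) (by positivity) (by
          have : 1 / (Q : ℝ) ^ 5 * (Q : ℝ) ^ 7 = Q * Q := by field_simp
          rw [this]
          nlinarith) (by omega)
      refine pow_trick h1 hn (by positivity) hNpos.le (by positivity) (by omega) ?_
      have h2 : 1 / (Q : ℝ) ^ 5 * Fintype.card G = Fintype.card G / (Q : ℝ) ^ 5 := by ring
      rw [h2, le_div_iff₀ (by positivity)]
      refine le_trans ?_ hMDr
      calc 2 * (4 * ((M : ℝ) * D.card)) * (Q : ℝ) ^ 10 * (Q : ℝ) ^ 5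
          = M * D.card * (8 * (Q : ℝ) ^ 15) := by ring
        _ ≤ M * D.card * ((Q : ℝ) * (Q : ℝ) ^ 15) := by gcongr; linarith
        _ = M * D.card * (Q : ℝ) ^ 16 := by ring
        _ ≤ M * D.card * (Q : ℝ) ^ 492 := by
          gcongr
          · linarith
          · norm_num
    have e4 : S4 * (Q : ℝ) ^ 10 ≤ N := by
      have h1 : S4 * (Fintype.card G : ℝ) ^ Q ≤ Fintype.card G * ((M : ℝ) * D.card) ^ Q * N := by
        have := hCOV G D M Q (by omega)
        rw [hS4, hN]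
        exact_mod_cast this
      refine pow_trick h1 hn (by positivity) hNpos.le (by positivity) (by omega) ?_
      refine le_trans ?_ hMDr
      calc 2 * ((M : ℝ) * D.card) * (Q : ℝ) ^ 10
          = M * D.card * (2 * (Q : ℝ) ^ 10) := by ring
        _ ≤ M * D.card * ((Q : ℝ) * (Q : ℝ) ^ 10) := by gcongr; linarith
        _ = M * D.card * (Q : ℝ) ^ 11 := by ring
        _ ≤ M * D.card * (Q : ℝ) ^ 492 := by
          gcongr
          · linarith
          · norm_num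
    have htot : (∑ ω, ((U ω \ U' ω).card : ℝ)) ≤ S1 + S2 * (Q : ℝ) ^ 8 + M * (S3 + S4) := by
      have h0 := stp_count U U' Imp (fun ω => (F ω).biUnion (fun p => p.2))
        (fun ω => LDok D e m ((Q : ℝ) ^ 7) (1 / (Q : ℝ) ^ 5) ω B) (fun ω => Covok D Q ω)
        (fun ω => ((F ω).card : ℝ) * (Q : ℝ) ^ 8) (by
          intro ω h1 h2 v hv
          have h3 : U' ω = U₀ ω \ (F ω).biUnion (fun p => p.2) := if_pos ⟨h1, h2⟩
          rw [h3] at hv
          by_cases h4 : v ∈ Imp ω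
          · exact Finset.mem_union_left _ h4
          · refine Finset.mem_union_right _ ?_
            by_contra h5
            exact (Finset.mem_sdiff.mp hv).2 (Finset.mem_sdiff.mpr
              ⟨Finset.mem_sdiff.mpr ⟨(Finset.mem_sdiff.mp hv).1, h4⟩, h5⟩)) (by
          intro ω _ h2
          have h4 : (((F ω).biUnion (fun p => p.2)).card : ℝ) ≤ ∑ p ∈ F ω, (p.2.card : ℝ) := by
            exact_mod_cast Finset.card_biUnion_le
          refine h4.trans ?_
          rw [← nsmul_eq_mul, ← Finset.sum_const]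
          refine Finset.sum_le_sum fun p hp => ?_
          have := popular_card hsys.pos hBpos (by positivity : (0 : ℝ) < (Q : ℝ) ^ 7) h2 p.1 p.2
            ((hF1 ω).edge p hp).pop
          calc (p.2.card : ℝ) ≤ (Q : ℝ) ^ 7 * Q := this
            _ = (Q : ℝ) ^ 8 := by ring) (fun ω => by positivity)
      rw [← Finset.sum_mul] at h0
      exact h0
    have hfin : (Q : ℝ) ^ 7 * ∑ ω, ((U ω \ U' ω).card : ℝ) ≤ M * N :=
      stp_num (by linarith) hMr hNpos.le (Finset.sum_nonneg fun _ _ => Nat.cast_nonneg _)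
        (Finset.sum_nonneg fun _ _ => Nat.cast_nonneg _) (Nat.cast_nonneg _) (Nat.cast_nonneg _)
        e1' e2 e3 e4 htot
    rw [hN] at hfin
    exact_mod_cast hfin

end Pool.Agent.Helper4.MCP
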