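import Pool.Agent.Helper4.MCP.GoalsC

/-!
Project MCP (MP_d8224a_co): the lower bound for the threshold from `G_CORP` and `G_NUMP`.
-/

set_option autoImplicit false

namespace Pool.Agent.Helper4.MCP

open Finset Pool.Agent.Helper87.MC

theorem small_isMC' (hC : G_CORP) (hN : G_NUMP) : ∃ c : ℝ, 0 < c ∧
    ∀ (G : Type) [AddCommGroup G] [Fintype G] (S : Set G), 3 ≤ Fintype.card G → S.Nonempty →
      (S.ncard : ℝ) ≤ c * Real.sqrt (Fintype.card G) / Real.log (Fintype.card G) ^ 250 →
      IsMC S := by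
  classical
  obtain ⟨c, hc, h⟩ := hN
  refine ⟨c, hc, ?_⟩
  intro G _ _ S h3 hne hS
  have hpos : 1 ≤ S.ncard := (Set.ncard_pos (Set.toFinite S)).mpr hne
  obtain ⟨Q, h1, h2, h4⟩ := h (Fintype.card G) S.ncard h3 hpos hS
  set D : Finset G := univ.filter fun x => -x ∈ S with hD
  have hDS : {x : G | -x ∈ D} = S := by
    ext x
    simp [hD]
  have hcard : D.card = S.ncard := by
    rw [← Set.ncard_coe_finset]
    have h7 : (D : Set G) = (fun x : G => -x) '' S := by
      ext x
      simp only [hD, coe_filter, mem_univ, true_and, Set.mem_ofPred_eq, Set.mem_image]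
      constructor
      · intro hx
        exact ⟨-x, hx, neg_neg x⟩
      · rintro ⟨y, hy, rfl⟩
        simpa using hy
    rw [h7, Set.ncard_image_of_injective S neg_injective]
  have hDne : D.Nonempty := by
    rw [← Finset.card_pos, hcard]
    omega
  have := hC G D Q h1 h2 hDne (by rw [hcard]; exact h4)
  rwa [hDS] at this

open Pointwise in
theorem isMC_singleton' {G : Type} [AddCommGroup G] (c : G) : IsMC ({c} : Set G) := by
  refine ⟨Set.univ, ?_, ?_⟩
  · ext g
    simp only [Set.mem_univ, iff_true]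
    exact ⟨g - c, Set.mem_univ _, c, rfl, by simp⟩
  · intro C' hC' h
    have : C' = ∅ := by
      rcases Set.subset_singleton_iff_eq.1 hC'.1 with h1 | h1
      · exact h1
      · exfalso; rw [h1] at hC'; exact hC'.2 (subset_refl _)
    rw [this] at h
    have h0 : (0 : G) ∈ (∅ : Set G) := by
      have : (Set.univ : Set G) + ∅ = ∅ := Set.add_empty
      rw [this] at h
      rw [h]; exact Set.mem_univ _
    exact h0

theorem lower_good (hC : G_CORP) (hN : G_NUMP) : ∃ c : ℝ, 0 < c ∧
    ∀ (G : Type) [AddCommGroup G] [Fintype G], 3 ≤ Fintype.card G → ∃ t : ℕ,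
      c * (Real.sqrt (Fintype.card G) / Real.log (Fintype.card G) ^ 250) ≤ t ∧
      ∀ S : Set G, S.Nonempty → S.ncard ≤ t → IsMC S := by
  obtain ⟨c, hc, h⟩ := small_isMC' hC hN
  refine ⟨c / 2, by positivity, ?_⟩
  intro G _ _ h3
  set x := c * Real.sqrt (Fintype.card G) / Real.log (Fintype.card G) ^ 250 with hx
  have hlog : 0 ≤ Real.log (Fintype.card G) := Real.log_natCast_nonneg _
  have hx0 : 0 ≤ x := by rw [hx]; positivity
  have h2x : c / 2 * (Real.sqrt (Fintype.card G) / Real.log (Fintype.card G) ^ 250) = x / 2 := by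
    rw [hx]
    ring
  rw [h2x]
  have hfl : (⌊x⌋₊ : ℝ) ≤ x := Nat.floor_le hx0
  have hfl2 : x - 1 < (⌊x⌋₊ : ℝ) := Nat.sub_one_lt_floor x
  refine ⟨max 1 ⌊x⌋₊, ?_, ?_⟩
  · push_cast
    by_cases hx1 : x ≤ 2
    · exact le_max_of_le_left (by linarith)
    · exact le_max_of_le_right (by linarith)
  · intro S hne hS
    rcases le_max_iff.mp hS with h1 | h1
    · have h2 : S.ncard = 1 := by
        have : 0 < S.ncard := (Set.ncard_pos (Set.toFinite S)).mpr hne
        omega
      obtain ⟨a, rfl⟩ := Set.ncard_eq_one.1 h2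
      exact isMC_singleton' a
    · refine h G S h3 hne ?_
      have h2 : (S.ncard : ℝ) ≤ ⌊x⌋₊ := by exact_mod_cast h1
      exact h2.trans hfl

end Pool.Agent.Helper4.MCP
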