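import Pool.Agent.Helper4.MCP.GENK

set_option autoImplicit false

namespace Pool.Agent.Helper4.MCP

open Finset Pool.Agent.Helper87.MC Pool.Agent.Helper26.MCE

open Classical in
theorem goalTREE : G_TREE := by
  intro Λ _ m s Z a cc δ η e₀ hm huniv hs hcc hacc he₀ hδ0 hδ1 hη0 hη1 h1 h2 h3 hlow hsplit
  have ha : 0 ≤ a := by linarith
  have hs' : (1 : ℝ) ≤ s := by exact_mod_cast hs
  have hs0 : (0 : ℝ) ≤ s := by linarith
  have main : ∀ B : Finset Λ, 1 ≤ s * ms m B → a / 4 * (s * ms m B) + 2 * cc ≤ Z B := by
    intro B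
    induction B using Finset.strongInduction with
    | H B ih =>
      intro hB
      obtain ⟨ι, _, T, i₀, hT1, hT2, hT3, hT4, hT5, hT6⟩ := hsplit B hB
      have hBpos : 0 < ms m B := by
        by_contra hcon
        push Not at hcon
        have : (s : ℝ) * ms m B ≤ 0 := mul_nonpos_of_nonneg_of_nonpos hs0 hcon
        linarith
      have hB1 : ms m B ≤ 1 := by
        rw [← huniv]
        exact ms_mono hm (Finset.subset_univ _)
      have ht : (s : ℝ) * ms m B ≤ s := by nlinarith
      set t : ι → ℝ := fun i => s * ms m (T i) with htdef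
      have ht0 : ∀ i, 0 ≤ t i := fun i => mul_nonneg hs0 (ms_nonneg hm _)
      have hsub : ∀ i, T i ⊂ B := by
        intro i
        refine lt_of_le_of_ne (hT1 i) ?_
        intro h
        have := hT4 i
        rw [h] at this
        nlinarith
      have hZbig : ∀ i, 1 ≤ t i → a / 4 * t i + 2 * cc ≤ Z (T i) := fun i hi => ih _ (hsub i) hi
      have hZsmall : ∀ i, ¬ 1 ≤ t i → a / 2 * t i ≤ Z (T i) := by
        intro i hi
        push Not at hi
        exact hlow _ hi.le
      set Big := univ.filter (fun i => 1 ≤ t i) with hBig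
      set σ := ∑ i ∈ Big, t i with hσ
      set τ := ∑ i ∈ univ.filter (fun i => ¬ 1 ≤ t i), t i with hτ
      have hsum : ∑ i, t i = σ + τ := (Finset.sum_filter_add_sum_filter_not _ _ _).symm
      have hτ0 : 0 ≤ τ := Finset.sum_nonneg fun i _ => ht0 i
      have hσ0 : 0 ≤ σ := Finset.sum_nonneg fun i _ => ht0 i
      have hsum' : (1 - δ) * (s * ms m B) ≤ σ + τ := by
        rw [← hsum, htdef, ← Finset.mul_sum]
        have := mul_le_mul_of_nonneg_left hT5 hs0
        linarith
      have hZsum : a / 4 * σ + 2 * cc * Big.card + a / 2 * τ ≤ ∑ i, Z (T i) := by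
        rw [← Finset.sum_filter_add_sum_filter_not univ (fun i => 1 ≤ t i) (fun i => Z (T i))]
        have hb : ∑ i ∈ Big, (a / 4 * t i + 2 * cc) ≤ ∑ i ∈ Big, Z (T i) :=
          Finset.sum_le_sum fun i hi => hZbig i (by rw [hBig, mem_filter] at hi; exact hi.2)
        have hc : ∑ i ∈ univ.filter (fun i => ¬ 1 ≤ t i), (a / 2 * t i) ≤
            ∑ i ∈ univ.filter (fun i => ¬ 1 ≤ t i), Z (T i) :=
          Finset.sum_le_sum fun i hi => hZsmall i (by rw [mem_filter] at hi; exact hi.2)
        rw [Finset.sum_add_distrib, ← Finset.mul_sum, Finset.sum_const, nsmul_eq_mul] at hb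
        rw [← Finset.mul_sum] at hc
        linarith
      have hcost1 : ∑ i ∈ univ.erase i₀, min 1 (t i) ≤
          ((Big.erase i₀).card : ℝ) + τ := by
        rw [← Finset.sum_filter_add_sum_filter_not (univ.erase i₀) (fun i => 1 ≤ t i)]
        apply add_le_add
        · have h5 : (univ.erase i₀).filter (fun i => 1 ≤ t i) = Big.erase i₀ := by
            ext i
            simp [hBig, and_comm]
          rw [h5]
          calc ∑ i ∈ Big.erase i₀, min 1 (t i) ≤ ∑ i ∈ Big.erase i₀, (1 : ℝ) :=
                Finset.sum_le_sum fun i _ => min_le_left _ _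
            _ = _ := by simp
        · calc ∑ i ∈ (univ.erase i₀).filter (fun i => ¬ 1 ≤ t i), min 1 (t i)
              ≤ ∑ i ∈ (univ.erase i₀).filter (fun i => ¬ 1 ≤ t i), t i :=
                Finset.sum_le_sum fun i _ => min_le_right _ _
            _ ≤ τ := by
                apply Finset.sum_le_sum_of_subset_of_nonneg
                · intro i hi
                  rw [mem_filter] at hi ⊢
                  exact ⟨mem_univ _, hi.2⟩
                · intro i _ _
                  exact ht0 i
      have hcost2 : cc * ∑ i ∈ univ.erase i₀, min 1 (t i) ≤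
          cc * (((Big.erase i₀).card : ℝ) + τ) := mul_le_mul_of_nonneg_left hcost1 hcc
      have hZ : a / 4 * σ + 2 * cc * Big.card + a / 2 * τ ≤
          Z B + cc * (((Big.erase i₀).card : ℝ) + τ) + e₀ := by
        have := hZsum.trans hT6
        linarith
      have hccτ : cc * τ ≤ a / 16 * τ := mul_le_mul_of_nonneg_right (by linarith) hτ0
      rcases Nat.eq_zero_or_pos Big.card with hβ | hβ
      · -- no big piece
        have hBe : Big = ∅ := Finset.card_eq_zero.1 hβ
        have hσ' : σ = 0 := by rw [hσ, hBe, Finset.sum_empty]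
        rw [hBe] at hZ
        simp only [Finset.card_empty, Nat.cast_zero, mul_zero, add_zero,
          Finset.erase_empty, zero_add, hσ'] at hZ hsum'
        have h6 : 7 * a / 16 * ((1 - δ) * (s * ms m B)) ≤ 7 * a / 16 * τ :=
          mul_le_mul_of_nonneg_left (by linarith) (by linarith)
        have h7 : (7 * a / 16 * δ + e₀) * (s * ms m B) ≤ a / 16 * (s * ms m B) :=
          mul_le_mul_of_nonneg_right h3 (by linarith)
        have h8 : e₀ ≤ e₀ * (s * ms m B) := le_mul_of_one_le_right he₀ hB
        have h9 : a / 8 ≤ a / 8 * (s * ms m B) := le_mul_of_one_le_right (by linarith) hB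
        nlinarith
      · -- the largest piece is big
        have hi₀ : i₀ ∈ Big := by
          obtain ⟨i, hi⟩ := Finset.card_pos.1 hβ
          rw [hBig, mem_filter] at hi ⊢
          refine ⟨mem_univ _, hi.2.trans ?_⟩
          exact mul_le_mul_of_nonneg_left (hT3 i) hs0
        have hcard : ((Big.erase i₀).card : ℝ) = Big.card - 1 := by
          rw [Finset.card_erase_of_mem hi₀, Nat.cast_sub (by omega), Nat.cast_one]
        rw [hcard] at hZ
        have hδt : a / 4 * δ * (s * ms m B) ≤ a / 4 * δ * s :=
          mul_le_mul_of_nonneg_left ht (by positivity)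
        have h6 : a / 4 * ((1 - δ) * (s * ms m B)) ≤ a / 4 * (σ + τ) :=
          mul_le_mul_of_nonneg_left hsum' (by linarith)
        by_cases hβ2 : 2 ≤ Big.card
        · have hβ2' : (2 : ℝ) ≤ Big.card := by exact_mod_cast hβ2
          have h7 : cc * 2 ≤ cc * Big.card := mul_le_mul_of_nonneg_left hβ2' hcc
          have h8 : 0 ≤ a * τ := mul_nonneg ha hτ0
          nlinarith
        · have hβ1 : Big.card = 1 := by omega
          have hBs : Big = {i₀} := by
            obtain ⟨j, hj⟩ := Finset.card_eq_one.1 hβ1
            rw [hj] at hi₀ ⊢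
            rw [Finset.mem_singleton] at hi₀
            rw [hi₀]
          have hσ1 : σ ≤ (1 - η) * (s * ms m B) := by
            rw [hσ, hBs, Finset.sum_singleton]
            have := mul_le_mul_of_nonneg_left (hT4 i₀).le hs0
            linarith
          have hτ1 : (η - δ) * (s * ms m B) ≤ τ := by linarith
          rw [hβ1] at hZ
          push_cast at hZ
          have h7 : 3 * a / 16 * ((η - δ) * (s * ms m B)) ≤ 3 * a / 16 * τ :=
            mul_le_mul_of_nonneg_left hτ1 (by linarith)
          have h8 : (a / 4 * δ + e₀) * (s * ms m B) ≤ 3 * a / 16 * (η - δ) * (s * ms m B) :=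
            mul_le_mul_of_nonneg_right h2 (by linarith)
          have h9 : e₀ ≤ e₀ * (s * ms m B) := le_mul_of_one_le_right he₀ hB
          nlinarith
  have := main univ (by rw [huniv]; linarith)
  rw [huniv] at this
  linarith

end Pool.Agent.Helper4.MCP
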