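import Pool.Agent.Helper4.MCP.TREE
import Pool.Agent.Helper4.MCP.MAXM

set_option autoImplicit false

namespace Pool.Agent.Helper4.MCP

open Finset Pool.Agent.Helper87.MC Pool.Agent.Helper26.MCE

theorem sys_ms_univ {G : Type} [AddCommGroup G] [Fintype G] {D J : Finset G} {Λ : Type}
    [Fintype Λ] {e : Λ → G} {W : Λ → AddSubgroup G} {m : Λ → ℝ} (h : Sys D J e W m)
    (hJ : J.Nonempty) : ms m univ = 1 := by
  classical
  have h1 : ms m univ = ∑ x ∈ J, ∑ l, (if e l = x then m l else 0) := by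
    rw [Finset.sum_comm]
    unfold ms
    refine Finset.sum_congr rfl fun l _ => ?_
    rw [Finset.sum_ite_eq, if_pos (h.mem l)]
  rw [h1]
  have h2 : ∑ x ∈ J, ∑ l, (if e l = x then m l else 0) = ∑ x ∈ J, 1 / (J.card : ℝ) := by
    refine Finset.sum_congr rfl fun x hx => ?_
    rw [← h.marg x hx]
  rw [h2, Finset.sum_const, nsmul_eq_mul]
  have : (J.card : ℝ) ≠ 0 := by
    have := Finset.card_pos.mpr hJ
    positivity
  field_simp

open Classical in
theorem goalUNSP (hS : G_SPLIT) (hZ : G_ZB) : G_UNSP := by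
  intro G _ _ D J Λ _ e W m M Q hsys hJ hQ hn hM hMD
  by_contra hcon
  push Not at hcon
  have hQr : (1000 : ℝ) ≤ Q := by exact_mod_cast hQ
  have hQ0 : (0 : ℝ) < Q := by linarith
  have hn0 : 0 < Fintype.card G := Fintype.card_pos
  set L := Real.log Q with hL
  have hL1 : 1 ≤ L := by
    rw [hL, Real.le_log_iff_exp_le hQ0]
    exact Real.exp_one_lt_three.le.trans (by linarith)
  have hL2 : L ≤ Q := (Real.log_le_sub_one_of_pos hQ0).trans (by linarith)
  have hLp : Real.log ((Q : ℝ) + 1) ≤ L + 1 / Q := by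
    have h1 : (Q : ℝ) + 1 = Q * (1 + 1 / Q) := by field_simp
    rw [h1, Real.log_mul hQ0.ne' (by positivity)]
    have h2 : Real.log (1 + 1 / (Q : ℝ)) ≤ 1 + 1 / (Q : ℝ) - 1 :=
      Real.log_le_sub_one_of_pos (by positivity)
    linarith
  have hLp0 : 0 ≤ Real.log ((Q : ℝ) + 1) := Real.log_nonneg (by linarith)
  have hiQ : 1 / (Q : ℝ) ≤ 1 / 1000 := one_div_le_one_div_of_le (by norm_num) hQr
  have hexp : ∀ j : ℕ, Real.exp (j * L) = (Q : ℝ) ^ j := by
    intro j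
    rw [Real.exp_nat_mul, Real.exp_log hQ0]
  -- the tree
  have hdel : (1 : ℝ) / (Q : ℝ) ^ 5 < 1 := by
    rw [div_lt_one (by positivity)]
    exact one_lt_pow₀ (by linarith) (by norm_num)
  have h5 : (1 : ℝ) / (Q : ℝ) ^ 5 ≤ 1 / 1000 * (1 / (Q : ℝ) ^ 3) := by
    have : (1 : ℝ) / (Q : ℝ) ^ 5 = 1 / (Q : ℝ) * (1 / Q * (1 / (Q : ℝ) ^ 3)) := by
      field_simp
    rw [this]
    have h3 : (0 : ℝ) ≤ 1 / (Q : ℝ) ^ 3 := by positivity
    have h4 : (0 : ℝ) ≤ 1 / (Q : ℝ) := by positivity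
    nlinarith [mul_nonneg h4 h3]
  have h3 : (1 : ℝ) / (Q : ℝ) ^ 3 ≤ 1 / 1000 := by
    have h6 : (1 : ℝ) / (Q : ℝ) ^ 3 ≤ 1 / (Q : ℝ) := by
      apply one_div_le_one_div_of_le hQ0
      nlinarith [pow_le_pow_right₀ (by linarith : (1 : ℝ) ≤ Q) (by norm_num : 1 ≤ 3)]
    exact h6.trans hiQ
  have h50 : (0 : ℝ) < 1 / (Q : ℝ) ^ 5 := by positivity
  have h30 : (0 : ℝ) < 1 / (Q : ℝ) ^ 3 := by positivity
  have h5Q : (1 : ℝ) / (Q : ℝ) ^ 5 * Q ≤ 1 / 1000 := by
    have : (1 : ℝ) / (Q : ℝ) ^ 5 * Q = 1 / (Q : ℝ) ^ 3 * (1 / Q) := by field_simp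
    rw [this]
    nlinarith [mul_le_mul h3 hiQ (by positivity) (by norm_num)]
  have huniv : ms m univ = 1 := sys_ms_univ hsys hJ
  obtain ⟨hZ1, hZ2⟩ := hZ G D J Λ e W m M Q (400 * L) hsys hJ hM (by positivity) (by
    have h1 : Real.exp (-(400 * L)) = 1 / (Q : ℝ) ^ 400 := by
      rw [Real.exp_neg, ← hexp 400, one_div]
      norm_num
    rw [h1, one_div, inv_mul_eq_div, le_div_iff₀ (by positivity)]
    exact_mod_cast hMD)
  have hchoose : ∀ B : Finset Λ, 0 < ms m B → ∃ F : (Fin M → G) → Finset (G × Finset (Fin M)),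
      ∀ ω, Maxi D e W m ((Q : ℝ) ^ 7) (1 / (Q : ℝ) ^ 5) (1 / (Q : ℝ) ^ 3) ω B (F ω) := by
    intro B hB
    have := fun ω : Fin M → G => goalMAXM G D Λ e W m M ((Q : ℝ) ^ 7) (1 / (Q : ℝ) ^ 5)
      (1 / (Q : ℝ) ^ 3) ω B hB hdel
    choose F hF using this
    exact ⟨F, hF⟩
  have hfin := goalTREE Λ m Q (ZZ ((M : ℝ) / Fintype.card G) W m Q) (400 * L)
    (16 * L + 8 * Real.log (Q + 1)) (1 / (Q : ℝ) ^ 5) (1 / (Q : ℝ) ^ 3) (1 / (Q : ℝ) ^ 5)
    hsys.pos huniv (by omega) (by positivity) (by linarith) h50.le h50.le hdel.le h30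
    (by linarith) (by
      have : 400 * L / 4 * (1 / (Q : ℝ) ^ 5) * Q = 100 * L * (1 / (Q : ℝ) ^ 5 * Q) := by ring
      rw [this]
      nlinarith) (by
      nlinarith [mul_nonneg (by linarith : (0 : ℝ) ≤ L) h50.le,
        mul_nonneg (by linarith : (0 : ℝ) ≤ L) h30.le]) (by
      nlinarith [mul_nonneg (by linarith : (0 : ℝ) ≤ L) h50.le]) (by
      intro B hB
      exact hZ1 B hB) (by
      intro B hB
      have hBpos : 0 < ms m B := by
        by_contra hc
        push Not at hc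
        have : (Q : ℝ) * ms m B ≤ 0 := mul_nonpos_of_nonneg_of_nonpos hQ0.le hc
        linarith
      obtain ⟨F, hF⟩ := hchoose B hBpos
      have hlt := hcon B F hB hF
      have hMDn : M * D.card ≤ Fintype.card G := by
        refine le_trans ?_ hMD
        exact Nat.le_mul_of_pos_right _ (pow_pos (by omega) _)
      exact hS G D J Λ e W m M Q ((Q : ℝ) ^ 7) (1 / (Q : ℝ) ^ 5) (1 / (Q : ℝ) ^ 3) (16 * L) B F
        hsys hJ (by omega) hM hdel (by positivity) hBpos hMDn (fun ω => (hF ω).edge)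
        (fun ω => (hF ω).disj) (by
          have h1 : Real.exp (16 * L) = (Q : ℝ) ^ 16 := by
            rw [← hexp 16]
            norm_num
          rw [h1, mul_comm ((Q : ℝ) ^ 16)]
          exact_mod_cast hlt.le))
  have hZ3 := hfin.trans hZ2
  have hfac : Real.log (Q.factorial : ℝ) ≤ Q * L := by
    have h1 : (Q.factorial : ℝ) ≤ (Q : ℝ) ^ Q := by exact_mod_cast Nat.factorial_le_pow Q
    have h2 := Real.log_le_log (by exact_mod_cast Nat.factorial_pos Q) h1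
    rwa [Real.log_pow] at h2
  have hlogn : Real.log (Fintype.card G) ≤ Q := by
    have h1 : ((Fintype.card G : ℕ) : ℝ) ≤ (2 : ℝ) ^ Q := by exact_mod_cast hn
    have h2 := Real.log_le_log (by exact_mod_cast hn0) h1
    rw [Real.log_pow] at h2
    have h3 : Real.log 2 ≤ 1 := by
      have := Real.log_le_sub_one_of_pos (show (0 : ℝ) < 2 by norm_num)
      linarith
    nlinarith
  nlinarith

end Pool.Agent.Helper4.MCP
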