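import Pool.Agent.Helper49.MC.Transfer
import Pool.Agent.Helper87.MC.Goals

/-!
Minimal complements in finite abelian groups (MP_d8224a_co): in every finite abelian group of order
`n ≥ 4` there is a nonempty set of at most `1944 √n (log n)³` elements which is not a minimal
complement (the proof of the hand-in UpperHalf by helper49, together with the complement of a point).
-/

set_option autoImplicit false

namespace Pool.Agent.Helper4.MCP

open Pointwise Pool.Agent.Helper87.MC

open Pool.Agent.Helper49.MC in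
lemma exists_bad (G : Type) [AddCommGroup G] [Fintype G] (hn : 5 ≤ Fintype.card G)
    (hN : 36 * (Nat.sqrt (Fintype.card G) + 1) * Nat.clog 2 (Fintype.card G) ^ 3
      < Fintype.card G) :
    ∃ C : Set G, C.Nonempty ∧
      C.ncard ≤ 36 * (Nat.sqrt (Fintype.card G) + 1) * Nat.clog 2 (Fintype.card G) ^ 3 ∧
      ¬ IsMC C := by
  classical
  set n := Fintype.card G with hn'
  set m := Nat.clog 2 n with hm
  set N := 36 * (Nat.sqrt n + 1) * m ^ 3 with hNdef
  have hnm : n ≤ 2 ^ m := Nat.le_pow_clog (by norm_num) n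
  have hm3 : 3 ≤ m := by
    by_contra hcon
    push Not at hcon
    have : 2 ^ m ≤ 2 ^ 2 := Nat.pow_le_pow_right (by norm_num) (by omega)
    omega
  have hN1 : 1 ≤ N := by
    have : 0 < N := by positivity
    exact this
  obtain ⟨H, x, l, hl1, hlN, hNl, hx⟩ := exists_structure (G := G) N hN1 hN
  have hcH : Nat.card H = Fintype.card H := Nat.card_eq_fintype_card
  rw [hcH] at hlN hNl
  set L := l * Fintype.card H with hL
  obtain ⟨C, hCs, hCc, hCg⟩ := exists_good (H := H) m l hm3 (by rw [← hL]; omega)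
  rw [← hL] at hCc
  have hLpos : 1 ≤ L := by omega
  refine ⟨((C.image (phi H x) : Finset G) : Set G), ?_, ?_, ?_⟩
  · rw [Finset.coe_nonempty]
    apply Finset.Nonempty.image
    rw [← Finset.card_pos]
    omega
  · rw [Set.ncard_coe_finset]
    calc (C.image (phi H x)).card ≤ C.card := Finset.card_image_le
      _ ≤ (slab H 0 l).card := Finset.card_le_card hCs
      _ = L := by rw [card_slab]; simp [hL]
      _ ≤ N := hlN
  · intro hmc
    have htr := transfer H x (l := l) (s := 2 * m) (u := 32 * m ^ 5) (by omega) hx C hCs hCg hmc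
    rw [← hL, ← hn'] at htr
    -- `L² ≤ 2 L |C| ≤ 2 n (4m+1) 32 m⁵`
    have h1 : L * L ≤ 2 * (n * ((2 * (2 * m) + 1) * (32 * m ^ 5))) := by
      calc L * L ≤ L * (2 * C.card) := Nat.mul_le_mul_left _ hCc
        _ = 2 * (L * C.card) := by ring
        _ ≤ _ := Nat.mul_le_mul_left _ htr
    have h2 : 2 * (n * ((2 * (2 * m) + 1) * (32 * m ^ 5))) ≤ 320 * (n * m ^ 6) := by
      have : (2 * (2 * m) + 1) ≤ 5 * m := by omega
      calc 2 * (n * ((2 * (2 * m) + 1) * (32 * m ^ 5)))
          ≤ 2 * (n * ((5 * m) * (32 * m ^ 5))) := by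
            apply Nat.mul_le_mul_left
            apply Nat.mul_le_mul_left
            exact Nat.mul_le_mul_right _ this
        _ = 320 * (n * m ^ 6) := by ring
    have h3 : n < (Nat.sqrt n + 1) * (Nat.sqrt n + 1) := Nat.lt_succ_sqrt n
    have h4 : 1296 * (n * m ^ 6) ≤ N * N := by
      calc 1296 * (n * m ^ 6) ≤ 1296 * (((Nat.sqrt n + 1) * (Nat.sqrt n + 1)) * m ^ 6) := by
            apply Nat.mul_le_mul_left
            exact Nat.mul_le_mul_right _ h3.le
        _ = N * N := by rw [hNdef]; ring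
    have h5 : N * N < (2 * L) * (2 * L) := Nat.mul_lt_mul_of_lt_of_lt hNl hNl
    have h6 : (2 * L) * (2 * L) = 4 * (L * L) := by ring
    have h7 : 0 < n * m ^ 6 := by positivity
    omega

/-- The complement of `0` is not a minimal complement if `|G| ≥ 4`. -/
theorem compl_zero_not_isMC {G : Type} [AddCommGroup G] [Fintype G] (h4 : 4 ≤ Fintype.card G) :
    ¬ IsMC ({0}ᶜ : Set G) := by
  classical
  rintro ⟨W, hW, hmin⟩
  have key : ∀ c : G, c ≠ 0 → ∃ w ∈ W, w + c ∈ W ∧ ∀ w' ∈ W, w' = w ∨ w' = w + c := by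
    intro c hc
    have h1 : ({0}ᶜ \ {c} : Set G) ⊂ {0}ᶜ := by
      refine ⟨Set.sdiff_subset, fun h => ?_⟩
      exact (h (show c ∈ ({0}ᶜ : Set G) from hc)).2 rfl
    obtain ⟨g, hg⟩ := (Set.ne_univ_iff_exists_notMem _).mp (hmin _ h1)
    have hg2 : g ∈ W + ({0}ᶜ : Set G) := by
      rw [hW]
      exact Set.mem_univ g
    obtain ⟨w, hw, c', hc', hwc⟩ := Set.mem_add.mp hg2
    have hc'c : c' = c := by
      by_contra hne
      exact hg (Set.mem_add.mpr ⟨w, hw, c', ⟨hc', hne⟩, hwc⟩)
    subst hc'c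
    have hall : ∀ w' ∈ W, w' = w ∨ w' = w + c' := by
      intro w' hw'
      by_contra hcon
      push Not at hcon
      refine hg (Set.mem_add.mpr ⟨w', hw', g - w', ⟨?_, ?_⟩, by abel⟩)
      · intro h0
        have h2 : g - w' = 0 := h0
        exact hcon.2 (by rw [hwc, ← sub_eq_zero, ← neg_sub, h2, neg_zero])
      · intro h0
        have h2 : g - w' = c' := h0
        apply hcon.1
        have h3 : w + c' - w' = c' := by rw [hwc, h2]
        have h4 : w - w' = 0 := by
          have : w + c' - w' = (w - w') + c' := by abel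
          rw [this] at h3
          simpa using h3
        rw [sub_eq_zero] at h4
        exact h4.symm
    refine ⟨w, hw, ?_, hall⟩
    by_contra hcon
    have hw0 : w ∈ W + ({0}ᶜ : Set G) := by
      rw [hW]
      exact Set.mem_univ w
    obtain ⟨w', hw', d, hd, hwd⟩ := Set.mem_add.mp hw0
    rcases hall w' hw' with h2 | h2
    · rw [h2] at hwd
      exact hd (by simpa using hwd)
    · rw [← h2] at hcon
      exact hcon hw'
  have hcard : ∃ c₀ : G, c₀ ≠ 0 := by
    have : Nontrivial G := Fintype.one_lt_card_iff_nontrivial.mp (by omega)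
    exact exists_ne 0
  obtain ⟨c₀, hc₀⟩ := hcard
  obtain ⟨w₀, hw₀, hw₀', hall₀⟩ := key c₀ hc₀
  have hsub : (Finset.univ : Finset G) ⊆ {0, c₀, -c₀} := by
    intro c _
    by_cases hc : c = 0
    · simp [hc]
    · obtain ⟨w, hw, hw', -⟩ := key c hc
      rcases hall₀ w hw with h1 | h1 <;> rcases hall₀ _ hw' with h2 | h2
      · exact absurd (by rw [h1] at h2; simpa using h2) hc
      · rw [h1] at h2
        simp [add_left_cancel h2]
      · rw [h1] at h2
        have h3 : c₀ + c = 0 := by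
          have : w₀ + (c₀ + c) = w₀ + 0 := by rw [← add_assoc, h2, add_zero]
          exact add_left_cancel this
        have h4 : c = -c₀ := (neg_eq_of_add_eq_zero_right h3).symm
        simp [h4]
      · exact absurd (by rw [h1] at h2; simpa using h2) hc
  have h1 := Finset.card_le_card hsub
  have h2 : ({0, c₀, -c₀} : Finset G).card ≤ 3 := Finset.card_le_three
  rw [Finset.card_univ] at h1
  omega

theorem upper_bad : ∃ K : ℝ, 0 < K ∧ ∀ (G : Type) [AddCommGroup G] [Fintype G],
    4 ≤ Fintype.card G → ∃ C : Set G, C.Nonempty ∧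
      (C.ncard : ℝ) ≤ K * (Real.sqrt (Fintype.card G) * Real.log (Fintype.card G) ^ 3) ∧
      ¬ IsMC C := by
  refine ⟨1944, by norm_num, ?_⟩
  intro G _ _ hn4
  have hn2 : 2 ≤ Fintype.card G := by omega
  set n := Fintype.card G with hn
  set m := Nat.clog 2 n with hm
  set N := 36 * (Nat.sqrt n + 1) * m ^ 3 with hN
  have hn2' : (2 : ℝ) ≤ n := by exact_mod_cast hn2
  have hlog2 : (0.6931 : ℝ) < Real.log 2 := by
    have := Real.log_two_gt_d9
    linarith
  have hlogn : Real.log 2 ≤ Real.log n := Real.log_le_log (by norm_num) hn2'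
  have hsq1 : (1 : ℝ) ≤ Real.sqrt n := by
    rw [Real.one_le_sqrt]
    linarith
  have hm1 : 1 ≤ m := by
    rw [hm]
    exact Nat.clog_pos (by norm_num) hn2
  have hmlog : (m : ℝ) ≤ 3 * Real.log n := by
    have h1 : 2 ^ (m - 1) < n := by
      have := Nat.pow_pred_clog_lt_self (b := 2) (by norm_num) (x := n) (by omega)
      simpa [hm] using this
    have h2 : ((2 : ℝ)) ^ (m - 1) < n := by exact_mod_cast h1
    have h3 : ((m : ℝ) - 1) * Real.log 2 < Real.log n := by
      have h4 := Real.log_lt_log (by positivity) h2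
      rw [Real.log_pow] at h4
      have h5 : ((m - 1 : ℕ) : ℝ) = (m : ℝ) - 1 := by push_cast [hm1]; ring
      rw [h5] at h4
      exact h4
    nlinarith
  have hsqrt : (Nat.sqrt n : ℝ) ≤ Real.sqrt n := Real.nat_sqrt_le_real_sqrt
  have hNreal : (N : ℝ) ≤ 1944 * (Real.sqrt n * (Real.log n) ^ 3) := by
    have hlog0 : 0 < Real.log n := by linarith
    have h1 : (N : ℝ) = 36 * ((Nat.sqrt n : ℝ) + 1) * (m : ℝ) ^ 3 := by
      rw [hN]; push_cast; ring
    rw [h1]
    have h2 : (m : ℝ) ^ 3 ≤ (3 * Real.log n) ^ 3 := pow_le_pow_left₀ (by positivity) hmlog 3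
    have h3 : 36 * ((Nat.sqrt n : ℝ) + 1) ≤ 72 * Real.sqrt n := by linarith
    calc 36 * ((Nat.sqrt n : ℝ) + 1) * (m : ℝ) ^ 3
        ≤ (72 * Real.sqrt n) * (3 * Real.log n) ^ 3 :=
          mul_le_mul h3 h2 (by positivity) (by positivity)
      _ = 1944 * (Real.sqrt n * (Real.log n) ^ 3) := by ring
  by_cases hNn : N < n
  · have h5 : 5 ≤ n := by
      by_contra hcon
      have h6 : 0 < m ^ 3 := pow_pos hm1 3
      have h7 : 36 * (Nat.sqrt n + 1) * 1 ≤ N := Nat.mul_le_mul_left _ h6
      omega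
    obtain ⟨C, hC1, hC2, hC3⟩ := exists_bad G (by rw [← hn]; exact h5)
      (by rw [← hn, ← hm, ← hN]; exact hNn)
    rw [← hn, ← hm, ← hN] at hC2
    refine ⟨C, hC1, ?_, hC3⟩
    have : (C.ncard : ℝ) ≤ N := by exact_mod_cast hC2
    exact this.trans hNreal
  · push Not at hNn
    refine ⟨({0}ᶜ : Set G), ?_, ?_, compl_zero_not_isMC hn4⟩
    · have : Nontrivial G := Fintype.one_lt_card_iff_nontrivial.mp (by omega)
      obtain ⟨c, hc⟩ := exists_ne (0 : G)
      exact ⟨c, hc⟩
    · have h1 : ({0}ᶜ : Set G).ncard ≤ n := by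
        have := Set.ncard_le_card ({0}ᶜ : Set G)
        rwa [Nat.card_eq_fintype_card] at this
      have : ((({0}ᶜ : Set G)).ncard : ℝ) ≤ N := by exact_mod_cast h1.trans hNn
      exact this.trans hNreal

end Pool.Agent.Helper4.MCP
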